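import Mathlib

set_option autoImplicit false

/-!
Lattice Schrödinger operators on `ℤ^d`: cubes, non-resonance and decay of solutions, and the
deterministic step of the multiscale analysis.
-/

namespace Pool.Agent.H12R2.And

open Finset Complex

/-- the lattice -/
abbrev V (d : ℕ) := Fin d → ℤ

variable {d : ℕ}

/-- unit vector -/
abbrev ee (i : Fin d) : V d := Pi.single i (1 : ℤ)

/-- the value of the potential -/
noncomputable def pot (ω : V d → Bool) (x : V d) : ℝ := if ω x then 1 else -1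

/-- `-(discrete Laplacian) + ω` acting on functions -/
noncomputable def hop (ω : V d → Bool) (u : V d → ℂ) (x : V d) : ℂ :=
  -(∑ i : Fin d, ((u (x + ee i) - u x) + (u (x - ee i) - u x)))
    + (if ω x then (1 : ℂ) else -1) * u x

/-- cube of radius `n` centred at `a` -/
noncomputable def Q (a : V d) (n : ℕ) : Finset (V d) :=
  Finset.Icc (fun i => a i - (n : ℤ)) (fun i => a i + (n : ℤ))

lemma mem_Q {a x : V d} {n : ℕ} : x ∈ Q a n ↔ ∀ i, |x i - a i| ≤ n := by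
  unfold Q
  rw [Finset.mem_Icc, Pi.le_def, Pi.le_def, ← forall_and]
  refine forall_congr' fun i => ?_
  rw [abs_le]
  constructor
  · rintro ⟨h1, h2⟩; constructor <;> linarith
  · rintro ⟨h1, h2⟩; constructor <;> linarith

lemma card_Q (a : V d) (n : ℕ) : (Q a n).card = (2 * n + 1) ^ d := by
  unfold Q
  rw [Pi.card_Icc]
  have : ∀ i : Fin d, (Finset.Icc (a i - (n : ℤ)) (a i + (n : ℤ))).card = 2 * n + 1 := by
    intro i
    rw [Int.card_Icc]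
    have : a i + (n : ℤ) + 1 - (a i - (n : ℤ)) = ((2 * n + 1 : ℕ) : ℤ) := by push_cast; ring
    rw [this, Int.toNat_natCast]
  simp [this]

lemma self_mem_Q (a : V d) (n : ℕ) : a ∈ Q a n := by
  rw [mem_Q]; intro i; simp

lemma Q_mono {a : V d} {m n : ℕ} (h : m ≤ n) : Q a m ⊆ Q a n := by
  intro x hx
  rw [mem_Q] at *
  intro i
  exact (hx i).trans (by exact_mod_cast h)

lemma Q_trans {a x y : V d} {m n : ℕ} (hx : x ∈ Q a m) (hy : y ∈ Q x n) : y ∈ Q a (m + n) := by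
  rw [mem_Q] at *
  intro i
  have h1 := hx i
  have h2 := hy i
  have : y i - a i = (y i - x i) + (x i - a i) := by ring
  rw [this]
  push_cast
  exact (abs_add_le _ _).trans (by linarith)

lemma Q_symm {a x : V d} {n : ℕ} : x ∈ Q a n ↔ a ∈ Q x n := by
  rw [mem_Q, mem_Q]
  refine forall_congr' fun i => ?_
  rw [abs_sub_comm]

lemma add_ee_mem (x : V d) (i : Fin d) : x + ee i ∈ Q x 1 := by
  rw [mem_Q]
  intro j
  by_cases h : j = i
  · subst h; simp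
  · simp [ee, Pi.single_eq_of_ne h]

lemma sub_ee_mem (x : V d) (i : Fin d) : x - ee i ∈ Q x 1 := by
  rw [mem_Q]
  intro j
  by_cases h : j = i
  · subst h; simp
  · simp [ee, Pi.single_eq_of_ne h]

/-- kernel of the operator -/
noncomputable def ker (ω : V d → Bool) (x y : V d) : ℝ :=
  (if y = x then (2 * d + pot ω x) else 0)
    - ∑ i : Fin d, ((if y = x + ee i then (1 : ℝ) else 0) + (if y = x - ee i then 1 else 0))

lemma ker_symm (ω : V d → Bool) (x y : V d) : ker ω x y = ker ω y x := by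
  unfold ker
  have h1 : (if y = x then (2 * d + pot ω x) else 0) = (if x = y then (2 * d + pot ω y) else 0) := by
    by_cases h : y = x
    · subst h; rfl
    · rw [if_neg h, if_neg (Ne.symm h)]
  rw [h1]
  congr 1
  refine Finset.sum_congr rfl fun i _ => ?_
  rw [add_comm]
  congr 1
  · by_cases h : y = x - ee i
    · rw [if_pos h, if_pos]; rw [h]; abel
    · rw [if_neg h, if_neg]; intro h2; apply h; rw [h2]; abel
  · by_cases h : y = x + ee i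
    · rw [if_pos h, if_pos]; rw [h]; abel
    · rw [if_neg h, if_neg]; intro h2; apply h; rw [h2]; abel

lemma sum_ite_supp {D : Finset (V d)} {v : V d → ℂ} (hv : ∀ x ∉ D, v x = 0) (z : V d) :
    ∑ y ∈ D, ((if y = z then (1 : ℝ) else 0 : ℝ) : ℂ) * v y = v z := by
  have : ∀ y ∈ D, ((if y = z then (1 : ℝ) else 0 : ℝ) : ℂ) * v y = if y = z then v z else 0 := by
    intro y _
    by_cases h : y = z
    · subst h; simp
    · simp [h]
  rw [Finset.sum_congr rfl this, Finset.sum_ite_eq']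
  by_cases hz : z ∈ D
  · rw [if_pos hz]
  · rw [if_neg hz, hv z hz]

lemma hop_eq_ker {ω : V d → Bool} {D : Finset (V d)} {v : V d → ℂ} (hv : ∀ x ∉ D, v x = 0)
    (x : V d) : hop ω v x = ∑ y ∈ D, (ker ω x y : ℂ) * v y := by
  have e1 : ∀ y ∈ D, (ker ω x y : ℂ) * v y =
      ((2 * d + pot ω x : ℝ) : ℂ) * (((if y = x then (1 : ℝ) else 0 : ℝ) : ℂ) * v y)
      - ∑ i : Fin d, (((if y = x + ee i then (1 : ℝ) else 0 : ℝ) : ℂ) * v y
        + ((if y = x - ee i then (1 : ℝ) else 0 : ℝ) : ℂ) * v y) := by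
    intro y _
    unfold ker
    rw [Complex.ofReal_sub, sub_mul]
    congr 1
    · by_cases h : y = x
      · simp [h]
      · simp [h]
    · rw [Complex.ofReal_sum, Finset.sum_mul]
      refine Finset.sum_congr rfl fun i _ => ?_
      rw [Complex.ofReal_add, add_mul]
  rw [Finset.sum_congr rfl e1, Finset.sum_sub_distrib, ← Finset.mul_sum, sum_ite_supp hv,
    Finset.sum_comm]
  simp only [Finset.sum_add_distrib, sum_ite_supp hv]
  unfold hop pot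
  simp only [Finset.sum_add_distrib, Finset.sum_sub_distrib, Finset.sum_const, Finset.card_univ,
    Fintype.card_fin, nsmul_eq_mul]
  by_cases h : ω x
  · simp [h]; ring
  · simp [h]; ring

/-- non-resonance -/
def NR (ω : V d → Bool) (E : ℝ) (D : Finset (V d)) (τ : ℝ) : Prop :=
  ∀ v : V d → ℂ, (∀ x ∉ D, v x = 0) →
    τ ^ 2 * ∑ x ∈ D, ‖v x‖ ^ 2 ≤ ∑ x ∈ D, ‖hop ω v x - (E : ℂ) * v x‖ ^ 2

lemma im_form_zero {ω : V d → Bool} {D : Finset (V d)} {v : V d → ℂ} (hv : ∀ x ∉ D, v x = 0) :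
    (∑ x ∈ D, (starRingEnd ℂ) (v x) * hop ω v x).im = 0 := by
  have h : (starRingEnd ℂ) (∑ x ∈ D, (starRingEnd ℂ) (v x) * hop ω v x)
      = ∑ x ∈ D, (starRingEnd ℂ) (v x) * hop ω v x := by
    simp only [hop_eq_ker hv, Finset.mul_sum, map_sum, map_mul, Complex.conj_conj,
      Complex.conj_ofReal]
    rw [Finset.sum_comm]
    refine Finset.sum_congr rfl fun x _ => Finset.sum_congr rfl fun y _ => ?_
    rw [ker_symm ω y x]
    ring
  exact Complex.conj_eq_iff_im.mp h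

lemma NR_complex {ω : V d → Bool} {E τ : ℝ} {D : Finset (V d)} (h : NR ω E D τ) (ε : ℝ)
    {v : V d → ℂ} (hv : ∀ x ∉ D, v x = 0) :
    τ ^ 2 * ∑ x ∈ D, ‖v x‖ ^ 2 ≤ ∑ x ∈ D, ‖hop ω v x - ((E : ℂ) + ε * I) * v x‖ ^ 2 := by
  refine (h v hv).trans ?_
  have key : ∀ x ∈ D, ‖hop ω v x - ((E : ℂ) + ε * I) * v x‖ ^ 2 =
      ‖hop ω v x - (E : ℂ) * v x‖ ^ 2 + ε ^ 2 * ‖v x‖ ^ 2
        - 2 * ε * ((starRingEnd ℂ) (v x) * hop ω v x).im := by
    intro x _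
    have e : hop ω v x - ((E : ℂ) + ε * I) * v x
      = (hop ω v x - (E : ℂ) * v x) - (ε * I) * v x := by ring
    rw [e]
    simp only [← Complex.normSq_eq_norm_sq, Complex.normSq_apply]
    simp
    ring
  rw [Finset.sum_congr rfl key, Finset.sum_sub_distrib, Finset.sum_add_distrib,
    ← Finset.mul_sum, ← Finset.mul_sum]
  have h0 : ∑ x ∈ D, ((starRingEnd ℂ) (v x) * hop ω v x).im = 0 := by
    rw [← Complex.im_sum]; exact im_form_zero hv
  rw [h0]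
  have : 0 ≤ ε ^ 2 * ∑ x ∈ D, ‖v x‖ ^ 2 := by positivity
  linarith

/-- `hop` only sees the neighbours -/
lemma hop_sub_of_eq_on {ω : V d → Bool} {u v : V d → ℂ} {x : V d} (hx : v x = u x) {T : ℝ}
    (h : ∀ y ∈ Q x 1, ‖u y - v y‖ ≤ T) : ‖hop ω v x - hop ω u x‖ ≤ 2 * d * T := by
  have e : hop ω v x - hop ω u x = ∑ i : Fin d, ((u (x + ee i) - v (x + ee i))
      + (u (x - ee i) - v (x - ee i))) := by
    unfold hop
    rw [hx]
    simp only [Finset.sum_add_distrib, Finset.sum_sub_distrib]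
    ring
  rw [e]
  refine (norm_sum_le _ _).trans ?_
  have : ∀ i ∈ (Finset.univ : Finset (Fin d)), ‖(u (x + ee i) - v (x + ee i))
      + (u (x - ee i) - v (x - ee i))‖ ≤ 2 * T := by
    intro i _
    refine (norm_add_le _ _).trans ?_
    have h1 := h _ (add_ee_mem x i)
    have h2 := h _ (sub_ee_mem x i)
    linarith
  refine (Finset.sum_le_sum this).trans ?_
  simp
  linarith

/-- decay of solutions at the centre of a cube -/
def Good (ω : V d → Bool) (E : ℝ) (L : ℕ) (κ : ℝ) (a : V d) : Prop :=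
  ∀ (ε : ℝ) (u : V d → ℂ) (S : ℝ),
    (∀ x ∈ Q a L, hop ω u x = ((E : ℂ) + ε * I) * u x) →
    (∀ x ∈ Q a (L + 1), ‖u x‖ ≤ S) → ‖u a‖ ≤ κ * S

/-- a-priori bound inside a non-resonant cube by the boundary values -/
lemma bound_of_NR {ω : V d → Bool} {E τ : ℝ} (hτ : 0 < τ) {a : V d} {ρ : ℕ} (hρ : 1 ≤ ρ)
    (h : NR ω E (Q a (ρ - 1)) τ) {ε : ℝ} {u : V d → ℂ}
    (hu : ∀ x ∈ Q a (ρ - 1), hop ω u x = ((E : ℂ) + ε * I) * u x) {T : ℝ} (hT : 0 ≤ T)
    (hb : ∀ x ∈ Q a ρ, x ∉ Q a (ρ - 1) → ‖u x‖ ≤ T) :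
    ∀ x ∈ Q a (ρ - 1), ‖u x‖ ≤ τ⁻¹ * (2 * d * (2 * ρ + 1) ^ d) * T := by
  classical
  intro x0 hx0
  set D := Q a (ρ - 1) with hD
  set v : V d → ℂ := fun x => if x ∈ D then u x else 0 with hv
  have hv0 : ∀ x ∉ D, v x = 0 := fun x hx => by simp [hv, hx]
  have hv1 : ∀ x ∈ D, v x = u x := fun x hx => by simp [hv, hx]
  have h1 := NR_complex h ε hv0
  have h2 : ∀ x ∈ D, ‖hop ω v x - ((E : ℂ) + ε * I) * v x‖ ^ 2 ≤ (2 * d * T) ^ 2 := by
    intro x hx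
    have e : hop ω v x - ((E : ℂ) + ε * I) * v x = hop ω v x - hop ω u x := by
      rw [hu x hx, hv1 x hx]
    rw [e]
    have h3 : ‖hop ω v x - hop ω u x‖ ≤ 2 * d * T := by
      refine hop_sub_of_eq_on (hv1 x hx) ?_
      intro y hy
      by_cases hyD : y ∈ D
      · rw [hv1 y hyD]; simpa using hT
      · rw [hv0 y hyD, sub_zero]
        refine hb y ?_ hyD
        have := Q_trans hx hy
        rwa [Nat.sub_add_cancel hρ] at this
    exact pow_le_pow_left₀ (norm_nonneg _) h3 2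
  have h3 : τ ^ 2 * ‖u x0‖ ^ 2 ≤ (D.card : ℝ) * (2 * d * T) ^ 2 := by
    calc τ ^ 2 * ‖u x0‖ ^ 2 = τ ^ 2 * ‖v x0‖ ^ 2 := by rw [hv1 x0 hx0]
      _ ≤ τ ^ 2 * ∑ x ∈ D, ‖v x‖ ^ 2 := by
          gcongr
          exact Finset.single_le_sum (f := fun x => ‖v x‖ ^ 2) (fun x _ => by positivity) hx0
      _ ≤ _ := h1
      _ ≤ ∑ x ∈ D, (2 * d * T) ^ 2 := Finset.sum_le_sum h2
      _ = _ := by simp
  have hc : (D.card : ℝ) ≤ (2 * ρ + 1) ^ d := by
    rw [hD, card_Q]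
    push_cast
    have : ((ρ - 1 : ℕ) : ℝ) ≤ ρ := by
      exact_mod_cast Nat.sub_le ρ 1
    gcongr
  have hc1 : (1 : ℝ) ≤ (2 * ρ + 1) ^ d := by
    apply one_le_pow₀
    have : (0 : ℝ) ≤ ρ := Nat.cast_nonneg ρ
    linarith
  have h4 : (τ * ‖u x0‖) ^ 2 ≤ ((2 * ρ + 1) ^ d * (2 * d * T)) ^ 2 := by
    rw [mul_pow, mul_pow]
    refine h3.trans ?_
    gcongr
    calc (D.card : ℝ) ≤ (2 * ρ + 1) ^ d := hc
      _ ≤ (2 * ρ + 1) ^ d * (2 * ρ + 1) ^ d := le_mul_of_one_le_left (by positivity) hc1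
      _ = ((2 * ρ + 1 : ℝ) ^ d) ^ 2 := by ring
  have h5 := abs_le_of_sq_le_sq h4 (by positivity)
  rw [abs_of_nonneg (by positivity)] at h5
  rw [mul_assoc, inv_mul_eq_div, le_div_iff₀ hτ]
  calc ‖u x0‖ * τ = τ * ‖u x0‖ := by ring
    _ ≤ _ := h5
    _ = _ := by ring

lemma solve_shift {ω : V d → Bool} {E : ℝ} {a w : V d} {L R : ℕ} {ρ : ℕ} {ε : ℝ} {u : V d → ℂ}
    (hu : ∀ x ∈ Q a R, hop ω u x = ((E : ℂ) + ε * I) * u x) (hw : w ∈ Q a ρ) (h : ρ + L ≤ R) :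
    ∀ x ∈ Q w L, hop ω u x = ((E : ℂ) + ε * I) * u x :=
  fun x hx => hu x (Q_mono h (Q_trans hw hx))

/-- crossing one good shell -/
lemma shell_bound {ω : V d → Bool} {E τ κ K : ℝ} (hτ : 0 < τ) (hκ : 0 ≤ κ) (hK1 : 1 ≤ K)
    {a : V d} {L ρ R : ℕ} (hρ : 1 ≤ ρ) (hK : τ⁻¹ * (2 * d * (2 * ρ + 1) ^ d) ≤ K)
    (hR : ρ + L ≤ R)
    (hNR : NR ω E (Q a (ρ - 1)) τ)
    (hG : ∀ w ∈ Q a ρ, w ∉ Q a (ρ - 1) → Good ω E L κ w) {ε : ℝ} {u : V d → ℂ}
    (hu : ∀ x ∈ Q a R, hop ω u x = ((E : ℂ) + ε * I) * u x) {S : ℝ}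
    (hS : ∀ x ∈ Q a (ρ + L + 1), ‖u x‖ ≤ S) :
    ∀ x ∈ Q a ρ, ‖u x‖ ≤ K * κ * S := by
  have hS0 : 0 ≤ S := (norm_nonneg _).trans (hS a (self_mem_Q a _))
  have hb : ∀ x ∈ Q a ρ, x ∉ Q a (ρ - 1) → ‖u x‖ ≤ κ * S := by
    intro w hw hw'
    refine hG w hw hw' ε u S (solve_shift hu hw hR) ?_
    intro x hx
    apply hS
    have := Q_trans hw hx
    rwa [← add_assoc] at this
  intro x hx
  by_cases hx' : x ∈ Q a (ρ - 1)
  · have := bound_of_NR hτ hρ hNR (u := u) (ε := ε)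
      (fun x hx => hu x (Q_mono (by omega) hx)) (mul_nonneg hκ hS0) hb x hx'
    refine this.trans ?_
    calc τ⁻¹ * (2 * d * (2 * ρ + 1) ^ d) * (κ * S) ≤ K * (κ * S) := by
          gcongr
      _ = K * κ * S := by ring
  · refine (hb x hx hx').trans ?_
    have : κ * S ≤ K * (κ * S) := le_mul_of_one_le_left (mul_nonneg hκ hS0) hK1
    linarith

/-- two good shells give a good larger cube -/
lemma good_of_two_shells {ω : V d → Bool} {E τ κ K : ℝ} (hτ : 0 < τ) (hκ : 0 ≤ κ) (hK1 : 1 ≤ K)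
    {a : V d} {L ρ₁ ρ₂ R : ℕ} (h1 : 1 ≤ ρ₁) (h12 : ρ₁ + L + 1 ≤ ρ₂) (h2 : ρ₂ + L ≤ R)
    (hK : τ⁻¹ * (2 * d * (2 * ρ₂ + 1) ^ d) ≤ K)
    (hNR1 : NR ω E (Q a (ρ₁ - 1)) τ) (hNR2 : NR ω E (Q a (ρ₂ - 1)) τ)
    (hG1 : ∀ w ∈ Q a ρ₁, w ∉ Q a (ρ₁ - 1) → Good ω E L κ w)
    (hG2 : ∀ w ∈ Q a ρ₂, w ∉ Q a (ρ₂ - 1) → Good ω E L κ w) :
    Good ω E R ((K * κ) ^ 2) a := by
  intro ε u S hu hS
  have hK' : τ⁻¹ * (2 * d * (2 * ρ₁ + 1) ^ d) ≤ K := by
    refine le_trans ?_ hK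
    have : (ρ₁ : ℝ) ≤ ρ₂ := by exact_mod_cast (by omega : ρ₁ ≤ ρ₂)
    gcongr
  have b2 := shell_bound hτ hκ hK1 (a := a) (L := L) (ρ := ρ₂) (R := R) (by omega) hK h2 hNR2 hG2 hu
    (S := S) (fun x hx => hS x (Q_mono (by omega) hx))
  have b1 := shell_bound hτ hκ hK1 (a := a) (L := L) (ρ := ρ₁) (R := R) h1 hK' (by omega) hNR1 hG1 hu
    (S := K * κ * S) (fun x hx => b2 x (Q_mono h12 hx))
  have := b1 a (self_mem_Q a _)
  calc ‖u a‖ ≤ K * κ * (K * κ * S) := this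
    _ = (K * κ) ^ 2 * S := by ring

end Pool.Agent.H12R2.And
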