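import Pool.Agent.H12R2.And9

set_option autoImplicit false

/-! From the vanishing of `Im ⟨φ, R φ⟩` on a dense set to singularity of all spectral measures. -/

namespace Pool.Agent.H12R2.And

open Complex MeasureTheory Filter
open scoped ENNReal Topology InnerProductSpace

section abstractSing

variable {F : Type*} [NormedAddCommGroup F] [InnerProductSpace ℂ F] [CompleteSpace F]

/-- the imaginary part of the Borel transform, as an `ℝ≥0∞`-valued function -/
noncomputable def gg (T : F →L[ℂ] F) (ψ : F) (ε E : ℝ) : ℝ≥0∞ :=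
  ENNReal.ofReal (inner ℂ ψ (Rz T ((E : ℂ) + ε * I) ψ)).im

lemma zim {E ε : ℝ} : ((E : ℂ) + ε * I).im = ε := by simp

lemma gg_cont {T : F →L[ℂ] F} (hT : IsSelfAdjoint T) (ψ : F) {ε : ℝ} (hε : 0 < ε) :
    Continuous (fun E : ℝ => (inner ℂ ψ (Rz T ((E : ℂ) + ε * I) ψ)).im) := by
  rw [continuous_iff_continuousAt]
  intro x
  have h1 : ContinuousAt (fun z => inner ℂ ψ (Rz T z ψ)) ((x : ℂ) + ε * I) :=
    (diff_inner hT ψ (by rw [zim]; exact hε.ne')).continuousAt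
  have h2 : ContinuousAt (fun x : ℝ => (x : ℂ) + ε * I) x := by fun_prop
  have h3 := ContinuousAt.comp (f := fun x : ℝ => (x : ℂ) + ε * I) h1 h2
  exact Complex.continuous_im.continuousAt.comp h3

lemma gg_meas {T : F →L[ℂ] F} (hT : IsSelfAdjoint T) (ψ : F) {ε : ℝ} (hε : 0 < ε) :
    Measurable (gg T ψ ε) := by
  unfold gg
  exact (gg_cont hT ψ hε).measurable.ennreal_ofReal

lemma gg_add {T : F →L[ℂ] F} (hT : IsSelfAdjoint T) (φ χ : F) {ε : ℝ} (hε : 0 < ε) (E : ℝ) :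
    gg T (φ + χ) ε E ≤ 2 * gg T φ ε E + 2 * gg T χ ε E := by
  have hz : ((E : ℂ) + ε * I).im ≠ 0 := by rw [zim]; exact hε.ne'
  unfold gg
  rw [im_inner hT hz, im_inner hT hz, im_inner hT hz, zim, map_add]
  rw [← ENNReal.ofReal_ofNat 2, ← ENNReal.ofReal_mul (by norm_num), ← ENNReal.ofReal_mul (by norm_num),
    ← ENNReal.ofReal_add (by positivity) (by positivity)]
  apply ENNReal.ofReal_le_ofReal
  set a := Rz T ((E : ℂ) + ε * I) φ
  set b := Rz T ((E : ℂ) + ε * I) χ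
  have h1 := norm_add_le a b
  have h2 : ‖a + b‖ ^ 2 ≤ 2 * ‖a‖ ^ 2 + 2 * ‖b‖ ^ 2 := by
    have h0 : 0 ≤ ‖a + b‖ := norm_nonneg _
    nlinarith [sq_nonneg (‖a‖ - ‖b‖)]
  nlinarith

lemma gg_int {T : F →L[ℂ] F} (hT : IsSelfAdjoint T) (ψ : F) {ε N : ℝ} (hε : 0 < ε)
    (hεN : ε ≤ N) (hN : 2 * ‖T‖ ≤ N) {S : Set ℝ} (hS : S ⊆ Set.Ioc (-N) N) :
    ∫⁻ E in S, gg T ψ ε E ≤ ENNReal.ofReal (8 * ‖ψ‖ ^ 2) := by
  have hN0 : 0 < N := hε.trans_le hεN
  calc ∫⁻ E in S, gg T ψ ε E ≤ ∫⁻ E in Set.Ioc (-N) N, gg T ψ ε E := lintegral_mono_set hS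
    _ = ENNReal.ofReal (∫ E in Set.Ioc (-N) N, (inner ℂ ψ (Rz T ((E : ℂ) + ε * I) ψ)).im) := by
        unfold gg
        rw [ofReal_integral_eq_lintegral_ofReal]
        · exact ((gg_cont hT ψ hε).integrableOn_Icc).mono_set Set.Ioc_subset_Icc_self
        · apply ae_of_all
          intro E
          have h0 : 0 ≤ (inner ℂ ψ (Rz T ((E : ℂ) + ε * I) ψ)).im := by
            rw [im_inner hT (by rw [zim]; exact hε.ne'), zim]
            positivity
          exact h0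
    _ ≤ _ := by
        apply ENNReal.ofReal_le_ofReal
        rw [← intervalIntegral.integral_of_le (by linarith)]
        exact int_bound hT ψ hε hεN hN

/-- from a dense set to all vectors -/
lemma tendsto_min {T : F →L[ℂ] F} (hT : IsSelfAdjoint T) {S : Set ℝ} {N : ℝ}
    (hS : S ⊆ Set.Ioc (-N) N) (hN : 2 * ‖T‖ ≤ N) {ε : ℕ → ℝ} (hε : ∀ k, 0 < ε k)
    (hεN : ∀ k, ε k ≤ N) {𝒟 : Set F} (h𝒟 : ∀ (ψ : F) (δ : ℝ), 0 < δ → ∃ φ ∈ 𝒟, ‖ψ - φ‖ < δ)
    (h : ∀ φ ∈ 𝒟, ∀ᵐ E ∂(volume.restrict S), Tendsto (fun k => gg T φ (ε k) E) atTop (𝓝 0))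
    (ψ : F) :
    Tendsto (fun k => ∫⁻ E in S, min (gg T ψ (ε k) E) 1) atTop (𝓝 0) := by
  rw [ENNReal.tendsto_nhds_zero]
  intro δ hδ
  -- choose the approximation
  obtain ⟨η, hη0, hη⟩ : ∃ η : ℝ, 0 < η ∧ ENNReal.ofReal (16 * η ^ 2) ≤ δ / 2 := by
    have hδ2 : 0 < δ / 2 := ENNReal.half_pos hδ.ne'
    have hc : Tendsto (fun η : ℝ => ENNReal.ofReal (16 * η ^ 2)) (𝓝[>] 0) (𝓝 0) := by
      have : Continuous (fun η : ℝ => ENNReal.ofReal (16 * η ^ 2)) :=
        ENNReal.continuous_ofReal.comp (by fun_prop)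
      have h2 := (this.tendsto 0).mono_left (nhdsWithin_le_nhds (s := Set.Ioi (0 : ℝ)))
      simpa using h2
    have h1 := (ENNReal.tendsto_nhds_zero.1 hc) (δ / 2) hδ2
    obtain ⟨η, h3, h4⟩ := (h1.and self_mem_nhdsWithin).exists
    exact ⟨η, h4, h3⟩
  obtain ⟨φ, hφ, hψφ⟩ := h𝒟 ψ η hη0
  set χ := ψ - φ with hχ
  have hψ : ψ = φ + χ := by rw [hχ]; abel
  have hfin : (volume.restrict S) Set.univ ≠ ∞ := by
    rw [Measure.restrict_apply_univ]
    exact ne_top_of_le_ne_top (by simp) (measure_mono hS)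
  have hlim : Tendsto (fun k => ∫⁻ E in S, min (2 * gg T φ (ε k) E) 1) atTop (𝓝 0) := by
    have h1 := tendsto_lintegral_of_dominated_convergence (μ := volume.restrict S)
      (F := fun k E => min (2 * gg T φ (ε k) E) 1) (f := fun _ => 0) (fun _ => 1)
      (fun k => ((gg_meas hT φ (hε k)).const_mul 2).min measurable_const)
      (fun k => ae_of_all _ fun E => min_le_right _ _) (by simpa using hfin) ?_
    · simpa using h1
    · filter_upwards [h φ hφ] with E hE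
      have h2 : Tendsto (fun k => 2 * gg T φ (ε k) E) atTop (𝓝 0) := by
        have := ENNReal.Tendsto.const_mul hE (Or.inr (by norm_num : (2 : ℝ≥0∞) ≠ ∞))
        simpa using this
      have h3 : Tendsto (fun k => min (2 * gg T φ (ε k) E) 1) atTop (𝓝 (min 0 1)) :=
        h2.min tendsto_const_nhds
      simpa using h3
  have hδ2 : 0 < δ / 2 := ENNReal.half_pos hδ.ne'
  filter_upwards [(ENNReal.tendsto_nhds_zero.1 hlim) (δ / 2) hδ2] with k hk
  calc ∫⁻ E in S, min (gg T ψ (ε k) E) 1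
      ≤ ∫⁻ E in S, (min (2 * gg T φ (ε k) E) 1 + 2 * gg T χ (ε k) E) := by
        apply lintegral_mono
        intro E
        have h1 := gg_add hT φ χ (hε k) E
        rw [← hψ] at h1
        simp only
        rcases le_total (2 * gg T φ (ε k) E) 1 with h2 | h2
        · rw [min_eq_left h2]
          exact (min_le_left _ _).trans h1
        · rw [min_eq_right h2]
          exact (min_le_right _ _).trans (le_add_of_nonneg_right zero_le)
    _ = (∫⁻ E in S, min (2 * gg T φ (ε k) E) 1) + 2 * ∫⁻ E in S, gg T χ (ε k) E := by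
        rw [lintegral_add_left (((gg_meas hT φ (hε k)).const_mul 2).min measurable_const),
          lintegral_const_mul _ (gg_meas hT χ (hε k))]
    _ ≤ δ / 2 + δ / 2 := by
        refine add_le_add hk (le_trans ?_ hη)
        have h1 := gg_int hT χ (hε k) (hεN k) hN hS
        calc 2 * ∫⁻ E in S, gg T χ (ε k) E ≤ 2 * ENNReal.ofReal (8 * ‖χ‖ ^ 2) := by gcongr
          _ = ENNReal.ofReal (16 * ‖χ‖ ^ 2) := by
              rw [← ENNReal.ofReal_ofNat 2, ← ENNReal.ofReal_mul (by norm_num)]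
              congr 1; ring
          _ ≤ _ := by
              apply ENNReal.ofReal_le_ofReal
              have := pow_le_pow_left₀ (norm_nonneg χ) hψφ.le 2
              linarith
    _ = δ := ENNReal.add_halves δ

lemma ae_liminf {T : F →L[ℂ] F} (hT : IsSelfAdjoint T) {S : Set ℝ} {N : ℝ}
    (hS : S ⊆ Set.Ioc (-N) N) (hN : 2 * ‖T‖ ≤ N) {ε : ℕ → ℝ} (hε : ∀ k, 0 < ε k)
    (hεN : ∀ k, ε k ≤ N) {𝒟 : Set F} (h𝒟 : ∀ (ψ : F) (δ : ℝ), 0 < δ → ∃ φ ∈ 𝒟, ‖ψ - φ‖ < δ)
    (h : ∀ φ ∈ 𝒟, ∀ᵐ E ∂(volume.restrict S), Tendsto (fun k => gg T φ (ε k) E) atTop (𝓝 0))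
    (ψ : F) :
    ∀ᵐ E ∂(volume.restrict S), liminf (fun k => min (gg T ψ (ε k) E) 1) atTop = 0 := by
  have h1 := tendsto_min hT hS hN hε hεN h𝒟 h ψ
  have hm : ∀ k, Measurable (fun E => min (gg T ψ (ε k) E) 1) :=
    fun k => (gg_meas hT ψ (hε k)).min measurable_const
  have h2 := lintegral_liminf_le (μ := volume.restrict S) (u := atTop) hm
  rw [h1.liminf_eq, nonpos_iff_eq_zero, lintegral_eq_zero_iff (.liminf hm)] at h2
  exact h2

/-- comparison of the Borel transform with the averages of the measure -/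
lemma ball_le {μ : Measure ℝ} [IsFiniteMeasure μ] {E ε : ℝ} (hε : 0 < ε) :
    μ (Metric.closedBall E ε) / volume (Metric.closedBall E ε) ≤
      ENNReal.ofReal (∫ x, ((x : ℂ) - ((E : ℂ) + ε * I))⁻¹ ∂μ).im := by
  have hne : ∀ x : ℝ, ((x : ℂ) - ((E : ℂ) + ε * I)) ≠ 0 := by
    intro x hx
    have := congrArg Complex.im hx
    simp at this
    exact hε.ne' this
  have him : ∀ x : ℝ, (((x : ℂ) - ((E : ℂ) + ε * I))⁻¹).im = ε / ((x - E) ^ 2 + ε ^ 2) := by
    intro x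
    rw [Complex.inv_im, Complex.normSq_apply]
    simp
    congr 1; ring
  have hcont : Continuous fun x : ℝ => ((x : ℂ) - ((E : ℂ) + ε * I))⁻¹ := by
    apply Continuous.inv₀ (by fun_prop) hne
  have hbd : ∀ x : ℝ, ‖((x : ℂ) - ((E : ℂ) + ε * I))⁻¹‖ ≤ ε⁻¹ := by
    intro x
    rw [norm_inv]
    apply inv_anti₀ hε
    refine le_trans ?_ (Complex.abs_im_le_norm _)
    simp [abs_of_pos hε]
  have hint : Integrable (fun x : ℝ => ((x : ℂ) - ((E : ℂ) + ε * I))⁻¹) μ := by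
    apply Integrable.of_bound hcont.aestronglyMeasurable ε⁻¹
    exact ae_of_all _ hbd
  have h1 : (∫ x, ((x : ℂ) - ((E : ℂ) + ε * I))⁻¹ ∂μ).im
      = ∫ x : ℝ, ε / ((x - E) ^ 2 + ε ^ 2) ∂μ := by
    have := Complex.imCLM.integral_comp_comm hint
    simp only [Complex.imCLM_apply, him] at this
    exact this.symm
  have hint2 : Integrable (fun x : ℝ => ε / ((x - E) ^ 2 + ε ^ 2)) μ := by
    have := Complex.imCLM.integrable_comp hint
    simpa [him] using this
  have h2 : (μ.real (Metric.closedBall E ε)) * (2 * ε)⁻¹ ≤ ∫ x : ℝ, ε / ((x - E) ^ 2 + ε ^ 2) ∂μ := by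
    have h3 : ∫ x : ℝ, (Metric.closedBall E ε).indicator (fun _ => (2 * ε)⁻¹) x ∂μ
        = (μ.real (Metric.closedBall E ε)) * (2 * ε)⁻¹ := by
      rw [integral_indicator Metric.isClosed_closedBall.measurableSet, setIntegral_const,
        smul_eq_mul]
    rw [← h3]
    apply integral_mono
    · exact (integrable_const _).indicator Metric.isClosed_closedBall.measurableSet
    · exact hint2
    · intro x
      simp only
      by_cases hx : x ∈ Metric.closedBall E ε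
      · rw [Set.indicator_of_mem hx]
        rw [Metric.mem_closedBall, Real.dist_eq] at hx
        rw [inv_eq_one_div, div_le_div_iff₀ (by positivity) (by positivity)]
        have : (x - E) ^ 2 ≤ ε ^ 2 := by
          rw [← sq_abs]; exact pow_le_pow_left₀ (abs_nonneg _) hx 2
        nlinarith
      · rw [Set.indicator_of_notMem hx]
        positivity
  rw [h1, Real.volume_closedBall]
  rw [← ENNReal.ofReal_toReal (measure_ne_top μ (Metric.closedBall E ε)),
    ← ENNReal.ofReal_div_of_pos (by positivity)]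
  apply ENNReal.ofReal_le_ofReal
  rw [div_eq_mul_inv]
  exact h2

/-- the conclusion: all spectral measures are singular on `S` -/
lemma singular_on {T : F →L[ℂ] F} (hT : IsSelfAdjoint T) {S : Set ℝ} {N : ℝ}
    (hS : S ⊆ Set.Ioc (-N) N) (hN : 2 * ‖T‖ ≤ N) {ε : ℕ → ℝ} (hε : ∀ k, 0 < ε k)
    (hεN : ∀ k, ε k ≤ N) (hε0 : Tendsto ε atTop (𝓝 0)) {𝒟 : Set F}
    (h𝒟 : ∀ (ψ : F) (δ : ℝ), 0 < δ → ∃ φ ∈ 𝒟, ‖ψ - φ‖ < δ)
    (h : ∀ φ ∈ 𝒟, ∀ᵐ E ∂(volume.restrict S), Tendsto (fun k => gg T φ (ε k) E) atTop (𝓝 0))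
    (ψ : F) {μ : Measure ℝ} [IsFiniteMeasure μ]
    (hμ : ∀ z : ℂ, z.im ≠ 0 → (∫ x, ((x : ℂ) - z)⁻¹ ∂μ) = inner ℂ ψ (Rz T z ψ)) :
    ∀ᵐ E ∂(volume.restrict S), μ.rnDeriv volume E = 0 := by
  have h1 := ae_liminf hT hS hN hε hεN h𝒟 h ψ
  have h2 := ae_restrict_of_ae (s := S) (Besicovitch.ae_tendsto_rnDeriv μ (volume : Measure ℝ))
  filter_upwards [h1, h2] with E hE1 hE2
  have h3 : Tendsto ε atTop (𝓝[>] 0) := by
    rw [tendsto_nhdsWithin_iff]
    exact ⟨hε0, Eventually.of_forall hε⟩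
  have h4 := hE2.comp h3
  have h5 : Tendsto (fun k => min (μ (Metric.closedBall E (ε k)) /
      volume (Metric.closedBall E (ε k))) 1) atTop (𝓝 (min (μ.rnDeriv volume E) 1)) :=
    Tendsto.min h4 tendsto_const_nhds
  have h6 : min (μ.rnDeriv volume E) 1 ≤ 0 := by
    rw [← h5.liminf_eq, ← hE1]
    refine liminf_le_liminf (Eventually.of_forall fun k => ?_)
    apply min_le_min_right
    refine (ball_le (hε k)).trans ?_
    rw [hμ _ (by rw [zim]; exact (hε k).ne')]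
    exact le_rfl
  rw [nonpos_iff_eq_zero] at h6
  rcases min_eq_iff.1 h6 with h7 | h7
  · exact h7.1
  · exact absurd h7.1 one_ne_zero

lemma mutuallySingular_of_rnDeriv {μ : Measure ℝ} [IsFiniteMeasure μ] {S : Set ℝ}
    (hS : MeasurableSet S) (h : ∀ᵐ E ∂(volume.restrict S), μ.rnDeriv volume E = 0) :
    (μ.restrict S) ⟂ₘ volume := by
  have h1 := Measure.haveLebesgueDecomposition_add μ (volume : Measure ℝ)
  have h2 : (volume.withDensity (μ.rnDeriv volume)).restrict S = 0 := by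
    rw [restrict_withDensity hS]
    rw [withDensity_congr_ae (g := 0) h, withDensity_zero]
  rw [h1, Measure.restrict_add, h2, add_zero]
  exact (Measure.mutuallySingular_singularPart μ volume).mono Measure.restrict_le_self le_rfl

end abstractSing

end Pool.Agent.H12R2.And
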