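import Pool.Agent.H12R2.And10

set_option autoImplicit false

/-! Assembly. -/

namespace Pool.Agent.H12R2.And

open Complex MeasureTheory ProbabilityTheory Filter
open scoped ENNReal Topology InnerProductSpace

variable {d : ℕ}

/-- edge interval -/
def EI (d m : ℕ) (b : Bool) : Set ℝ :=
  if b then Set.Ioo (-1) (-1 + th d m) else Set.Ioo (4 * d + 1 - th d m) (4 * d + 1)

/-- the good energies at stage `m` -/
def SB (d m : ℕ) (b : Bool) : Set ℝ := EI d m b ∩ XX d (3 * d + 4) (2 ^ (m ^ 2))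

lemma measurableSet_EI (m : ℕ) (b : Bool) : MeasurableSet (EI d m b) := by
  unfold EI; cases b
  · simp only [Bool.false_eq_true, if_false]; exact measurableSet_Ioo
  · simp only [if_true]; exact measurableSet_Ioo

lemma measurableSet_SB (m : ℕ) (b : Bool) : MeasurableSet (SB d m b) :=
  (measurableSet_EI m b).inter (measurableSet_XX _ _)

lemma EI_sub (hd : 1 ≤ d) (m : ℕ) (b : Bool) {N : ℝ} (hN : 4 * d + 2 ≤ N) :
    EI d m b ⊆ Set.Ioc (-N) N := by
  have hd' : (1 : ℝ) ≤ d := by exact_mod_cast hd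
  have h1 := th_le_one hd m
  have h0 := th_pos hd m
  intro E hE
  unfold EI at hE
  cases b
  · simp only [Bool.false_eq_true, if_false] at hE
    exact ⟨by linarith [hE.1], by linarith [hE.2]⟩
  · simp only [if_true] at hE
    exact ⟨by linarith [hE.1], by linarith [hE.2]⟩

lemma edge_EI (m : ℕ) (b : Bool) {E : ℝ} (hE : E ∈ EI d m b) : Edge d b (th d m) E := by
  unfold EI at hE
  cases b
  · simp only [Bool.false_eq_true, if_false] at hE
    exact edge_upper hE.1 hE.2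
  · simp only [if_true] at hE
    exact edge_lower hE.1 hE.2

/-- finitely supported vectors are dense -/
lemma fin_dense (ψ : lp (fun _ : V d => ℂ) 2) (δ : ℝ) (hδ : 0 < δ) :
    ∃ φ ∈ {φ : lp (fun _ : V d => ℂ) 2 | ∃ R0 : ℕ, ∀ x ∉ Q (0 : V d) R0, φ x = 0},
      ‖ψ - φ‖ < δ := by
  have h := lp.hasSum_single (p := 2) (by norm_num) ψ
  have h2 := (Metric.tendsto_nhds.1 h) δ hδ
  obtain ⟨s, hs⟩ := h2.exists
  refine ⟨∑ i ∈ s, lp.single 2 i (ψ i), ?_, ?_⟩
  · refine ⟨∑ x ∈ s, ∑ i, (x i).natAbs, ?_⟩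
    intro x hx
    rw [lp.coeFn_sum, Finset.sum_apply]
    apply Finset.sum_eq_zero
    intro i hi
    rw [lp.single_apply]
    apply Pi.single_eq_of_ne
    rintro rfl
    apply hx
    rw [mem_Q]
    intro j
    have h1 : (x j).natAbs ≤ ∑ i, (x i).natAbs :=
      Finset.single_le_sum (f := fun i => (x i).natAbs) (fun _ _ => Nat.zero_le _) (Finset.mem_univ j)
    have h2 : ∑ i, (x i).natAbs ≤ ∑ x ∈ s, ∑ i, (x i).natAbs :=
      Finset.single_le_sum (f := fun x : V d => ∑ i, (x i).natAbs) (fun _ _ => Nat.zero_le _) hi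
    have h3 : |x j - (0 : V d) j| = ((x j).natAbs : ℤ) := by
      simp
    rw [h3]
    exact_mod_cast h1.trans h2
  · rw [← dist_eq_norm, dist_comm]; exact hs

/-- the main estimate at stage `m` -/
lemma stage_ae (hd : 2 ≤ d) {m : ℕ} (hm : Stage d m) (b : Bool) :
    ∀ᵐ ω ∂(PP d), ∀ (H : lp (fun _ : V d => ℂ) 2 →L[ℂ] lp (fun _ : V d => ℂ) 2), IsH ω H →
      ∀ (ψ : lp (fun _ : V d => ℂ) 2) (μ : Measure ℝ), IsFiniteMeasure μ →
        (∀ z : ℂ, z.im ≠ 0 → (∫ x, ((x : ℂ) - z)⁻¹ ∂μ) = inner ℂ ψ (Rz H z ψ)) →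
        ∀ᵐ E ∂(volume.restrict (SB d m b)), μ.rnDeriv volume E = 0 := by
  have hd1 : 1 ≤ d := by omega
  have hfin : volume (SB d m b) ≠ ∞ :=
    ne_top_of_le_ne_top (by simp : volume (Set.Ioc (-(4 * d + 2) : ℝ) (4 * d + 2)) ≠ ∞)
      (measure_mono (Set.inter_subset_left.trans (EI_sub hd1 m b le_rfl)))
  have h1L : 1 ≤ 2 ^ (m ^ 2) := Nat.one_le_two_pow
  have hae := ae_ae_FF (d := d) (b := b) (ℓ := (d + 1) * m) (r := 3 * d + 4) (L0 := 2 ^ (m ^ 2))
    hm.hℓ h1L hm.big2 (fun a => init_prob hd b hm.one_le a) (measurableSet_SB m b)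
    (Set.inter_subset_right) hfin
  filter_upwards [hae] with ω hω H hH ψ μ hμf hμ
  set L0 : ℕ := 2 ^ (m ^ 2) with hL0
  set r : ℕ := 3 * d + 4 with hr
  set N : ℝ := max (4 * d + 2) (2 * ‖H‖) with hN
  have hd' : (1 : ℝ) ≤ d := by exact_mod_cast hd1
  have hN1 : 4 * d + 2 ≤ N := le_max_left _ _
  set ε : ℕ → ℝ := fun k => ((((10 ^ k * L0 : ℕ) : ℝ)) ^ (3 * r))⁻¹ with hε
  have hLk : ∀ k, 1 ≤ 10 ^ k * L0 := fun k => Nat.one_le_iff_ne_zero.mpr (by positivity)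
  have hLk' : ∀ k, (1 : ℝ) ≤ ((10 ^ k * L0 : ℕ) : ℝ) := fun k => by exact_mod_cast hLk k
  have hε0 : ∀ k, 0 < ε k := fun k => by
    have := hLk' k
    simp only [hε]; positivity
  have hε1 : ∀ k, ε k ≤ N := fun k => by
    have h1 : ε k ≤ 1 := inv_le_one_of_one_le₀ (one_le_pow₀ (hLk' k))
    linarith
  have hLtend : Tendsto (fun k : ℕ => (((10 ^ k * L0 : ℕ) : ℝ))⁻¹) atTop (𝓝 0) := by
    apply tendsto_inv_atTop_zero.comp
    apply tendsto_natCast_atTop_atTop.comp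
    apply tendsto_atTop_mono (f := fun k => k)
    · intro k
      calc k ≤ 10 ^ k := (Nat.lt_pow_self (by norm_num)).le
        _ ≤ 10 ^ k * L0 := Nat.le_mul_of_pos_right _ h1L
    · exact tendsto_id
  have hεt : Tendsto ε atTop (𝓝 0) := by
    refine squeeze_zero (fun k => (hε0 k).le) (fun k => ?_) hLtend
    simp only [hε]
    apply inv_anti₀ (by linarith [hLk' k])
    exact le_self_pow₀ (hLk' k) (by rw [hr]; omega)
  refine singular_on hH.isSelfAdjoint (N := N)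
    (Set.inter_subset_left.trans (EI_sub hd1 m b hN1)) (le_max_right _ _) hε0 hε1 hεt
    (fun ψ δ hδ => fin_dense ψ δ hδ) ?_ ψ hμ
  rintro φ ⟨R0, hφ⟩
  have hmem : ∀ᵐ E ∂(volume.restrict (SB d m b)), E ∈ SB d m b :=
    ae_restrict_mem (measurableSet_SB m b)
  filter_upwards [hω, hmem] with E hE hES
  have hedge := edge_EI m b hES.1
  -- the good cubes
  have h0 : ∀ (ω : V d → Bool) (a : V d), Dense ω b ((d + 1) * m) L0 a →
      Good ω E L0 (((L0 : ℝ) ^ (4 * (3 * d + 4) + 2 * d + 2))⁻¹) a := by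
    intro ω a hD
    exact (good_of_dense hd1 hedge (th_pos hd1 m).le rfl le_rfl hD).mono hm.decay
  have hGG := fun k => good_of_GG (r := r) (M := 4 * (3 * d + 4) + 2 * d + 2) hd1
    (by rw [hr]; omega) h1L hm.big1 h0 k ω
  have hev : ∀ᶠ k in atTop, gg H φ (ε k) E ≤
      ENNReal.ofReal (7 * (((10 ^ k * L0 : ℕ) : ℝ))⁻¹ * ‖φ‖ ^ 2) := by
    have hR : ∀ᶠ k : ℕ in atTop, R0 < 10 ^ k * L0 := by
      filter_upwards [eventually_gt_atTop R0] with k hk
      calc R0 < k := hk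
        _ ≤ 10 ^ k := (Nat.lt_pow_self (by norm_num)).le
        _ ≤ 10 ^ k * L0 := Nat.le_mul_of_pos_right _ h1L
    filter_upwards [hE, hR] with k hFF hRk
    apply ENNReal.ofReal_le_ofReal
    obtain ⟨hSh, hRR⟩ := hFF
    refine decouple hH (r := r) (M := 4 * (3 * d + 4) + 2 * d + 2) (R0 := R0) (by rw [hr]; omega)
      (by rw [hr]) (hLk k) (hm.big4.trans (Nat.le_mul_of_pos_left _ (by positivity))) hRk ?_ ?_ hφ
    · have := hRR 0 (by norm_num)
      simpa using this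
    · intro w hw hw'
      apply hGG k w
      apply hSh w
      · simpa using hw
      · simpa using hw'
  have hlim : Tendsto (fun k : ℕ => ENNReal.ofReal (7 * (((10 ^ k * L0 : ℕ) : ℝ))⁻¹ * ‖φ‖ ^ 2))
      atTop (𝓝 0) := by
    have h1 : Tendsto (fun k : ℕ => 7 * (((10 ^ k * L0 : ℕ) : ℝ))⁻¹ * ‖φ‖ ^ 2) atTop (𝓝 0) := by
      have := (hLtend.const_mul 7).mul_const (‖φ‖ ^ 2)
      simpa using this
    have h2 := (ENNReal.continuous_ofReal.tendsto 0).comp h1
    rw [ENNReal.ofReal_zero] at h2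
    exact h2
  exact tendsto_of_tendsto_of_tendsto_of_le_of_le' tendsto_const_nhds hlim
    (Eventually.of_forall fun _ => zero_le) hev

/-- the set of energies -/
def SS (d : ℕ) : Set ℝ := ⋃ m ∈ {m | Stage d m}, ⋃ b : Bool, SB d m b

lemma measurableSet_SS : MeasurableSet (SS d) :=
  MeasurableSet.biUnion (Set.to_countable _) fun m _ => MeasurableSet.iUnion fun b =>
    measurableSet_SB m b

lemma small_compl (hd : 2 ≤ d) (n : ℕ) : ∃ η₀ : ℝ, 0 < η₀ ∧ ∀ η : ℝ, 0 < η → η < η₀ →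
    volume (Set.Ioo (-1) (-1 + η) \ SS d) ≤ ENNReal.ofReal (η ^ n) ∧
    volume (Set.Ioo (4 * d + 1 - η) (4 * d + 1) \ SS d) ≤ ENNReal.ofReal (η ^ n) := by
  have hd1 : 1 ≤ d := by omega
  obtain ⟨m0, hm0⟩ := ((ev_stage hd1).and (th_small hd1 n)).exists_forall_of_atTop
  refine ⟨th d m0, th_pos hd1 m0, fun η hη hη0 => ?_⟩
  -- choose the stage
  have hex : ∃ m, m0 ≤ m ∧ th d (m + 1) ≤ η ∧ η < th d m := by
    have h1 : ∃ j : ℕ, th d (m0 + j) ≤ η := by
      have h2 := (th_tendsto hd1).eventually (gt_mem_nhds hη)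
      obtain ⟨j, hj⟩ := (h2.and (eventually_ge_atTop m0)).exists
      refine ⟨j - m0, ?_⟩
      rw [Nat.add_sub_cancel' hj.2]
      exact hj.1.le
    classical
    set j := Nat.find h1 with hj
    have hj1 := Nat.find_spec h1
    have hj0 : j ≠ 0 := by
      intro h0
      rw [← hj, h0, add_zero] at hj1
      linarith
    obtain ⟨i, hi⟩ := Nat.exists_eq_succ_of_ne_zero hj0
    refine ⟨m0 + i, by omega, ?_, ?_⟩
    · rw [← hj, hi] at hj1
      exact hj1
    · have := Nat.find_min h1 (m := i) (by rw [← hj]; omega)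
      exact not_le.1 this
  obtain ⟨m, hm, hm1, hm2⟩ := hex
  obtain ⟨hst, hsm⟩ := hm0 m hm
  have hcomp : ∀ (b : Bool) (I : Set ℝ), I ⊆ EI d m b →
      volume (I \ SS d) ≤ ENNReal.ofReal (η ^ n) := by
    intro b I hI
    have hsub : I \ SS d ⊆ (XX d (3 * d + 4) (2 ^ (m ^ 2)))ᶜ := by
      intro E hE hEX
      apply hE.2
      simp only [SS, Set.mem_iUnion]
      exact ⟨m, hst, b, hI hE.1, hEX⟩
    refine (measure_mono hsub).trans ((volume_compl_XX rfl hst.big3).trans ?_)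
    apply ENNReal.ofReal_le_ofReal
    exact hsm.trans (pow_le_pow_left₀ (th_pos hd1 _).le hm1 n)
  constructor
  · apply hcomp true
    intro E hE
    simp only [EI, if_true]
    exact ⟨hE.1, by linarith [hE.2]⟩
  · apply hcomp false
    intro E hE
    simp only [EI, Bool.false_eq_true, if_false]
    exact ⟨by linarith [hE.1], hE.2⟩

theorem main (hd : 2 ≤ d) :
    ∀ᵐ ω ∂(PP d), ∀ (H : lp (fun _ : V d => ℂ) 2 →L[ℂ] lp (fun _ : V d => ℂ) 2), IsH ω H →
      ∀ (ψ : lp (fun _ : V d => ℂ) 2) (μ : Measure ℝ), IsFiniteMeasure μ →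
        (∀ z : ℂ, z.im ≠ 0 → (∫ x, ((x : ℂ) - z)⁻¹ ∂μ) = inner ℂ ψ (Rz H z ψ)) →
        (μ.restrict (SS d)) ⟂ₘ volume := by
  have h1 : ∀ᵐ ω ∂(PP d), ∀ m : ℕ, ∀ b : Bool, Stage d m →
      ∀ (H : lp (fun _ : V d => ℂ) 2 →L[ℂ] lp (fun _ : V d => ℂ) 2), IsH ω H →
      ∀ (ψ : lp (fun _ : V d => ℂ) 2) (μ : Measure ℝ), IsFiniteMeasure μ →
        (∀ z : ℂ, z.im ≠ 0 → (∫ x, ((x : ℂ) - z)⁻¹ ∂μ) = inner ℂ ψ (Rz H z ψ)) →
        ∀ᵐ E ∂(volume.restrict (SB d m b)), μ.rnDeriv volume E = 0 := by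
    rw [ae_all_iff]; intro m
    rw [ae_all_iff]; intro b
    by_cases hm : Stage d m
    · filter_upwards [stage_ae hd hm b] with ω hω _
      exact hω
    · exact ae_of_all _ fun ω h => absurd h hm
  filter_upwards [h1] with ω hω H hH ψ μ hμf hμ
  apply mutuallySingular_of_rnDeriv measurableSet_SS
  unfold SS
  rw [ae_restrict_biUnion_iff _ (Set.to_countable _)]
  intro m hm
  rw [ae_restrict_iUnion_iff]
  intro b
  exact hω m b hm H hH ψ μ hμf hμ

end Pool.Agent.H12R2.And
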