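import Pool.Agent.H12R2.And1

set_option autoImplicit false

/-! The initial scale: decay of solutions near the band edges when the barriers are dense. -/

namespace Pool.Agent.H12R2.And

open Finset Complex

variable {d : ℕ}

/-- energies within `δ` of a band edge; `b` is the value of `ω` that acts as a barrier
(`b = true` at the lower edge `-1`, `b = false` at the upper edge `4 d + 1`) -/
def Edge (d : ℕ) (b : Bool) (δ E : ℝ) : Prop :=
  ∀ (ω : V d → Bool) (x : V d), (if ω x = b then 2 * d + 2 - δ else 2 * d - δ) ≤ |2 * d + pot ω x - E|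

lemma edge_lower {δ E : ℝ} (h1 : -1 < E) (h2 : E < -1 + δ) : Edge d true δ E := by
  intro ω x
  have hd : (0 : ℝ) ≤ d := Nat.cast_nonneg d
  unfold pot
  refine le_trans ?_ (le_abs_self _)
  by_cases h : ω x = true
  · simp [h]; linarith
  · simp [h]; linarith

lemma edge_upper {δ E : ℝ} (h1 : 4 * d + 1 - δ < E) (h2 : E < 4 * d + 1) : Edge d false δ E := by
  intro ω x
  have hd : (0 : ℝ) ≤ d := Nat.cast_nonneg d
  unfold pot
  refine le_trans ?_ (neg_le_abs _)
  by_cases h : ω x = false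
  · simp [h]; linarith
  · simp at h; simp [h]; linarith

/-- subsolution inequality -/
lemma subsol {b : Bool} {δ E ε : ℝ} (hE : Edge d b δ E) {ω : V d → Bool} {u : V d → ℂ} {x : V d}
    (hu : hop ω u x = ((E : ℂ) + ε * I) * u x) :
    (if ω x = b then 2 * d + 2 - δ else 2 * d - δ) * ‖u x‖ ≤
      ∑ i : Fin d, (‖u (x + ee i)‖ + ‖u (x - ee i)‖) := by
  have e : (((2 * d + pot ω x - E : ℝ) : ℂ) - ε * I) * u x
      = ∑ i : Fin d, (u (x + ee i) + u (x - ee i)) := by
    have h1 : hop ω u x = (((2 * d + pot ω x : ℝ)) : ℂ) * u x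
        - ∑ i : Fin d, (u (x + ee i) + u (x - ee i)) := by
      unfold hop pot
      simp only [Finset.sum_add_distrib, Finset.sum_sub_distrib, Finset.sum_const,
        Finset.card_univ, Fintype.card_fin, nsmul_eq_mul]
      by_cases h : ω x
      · simp [h]; ring
      · simp [h]; ring
    rw [h1] at hu
    push_cast at hu ⊢
    linear_combination hu
  have h2 : |2 * d + pot ω x - E| ≤ ‖((2 * d + pot ω x - E : ℝ) : ℂ) - ε * I‖ := by
    have := Complex.abs_re_le_norm (((2 * d + pot ω x - E : ℝ) : ℂ) - ε * I)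
    simpa using this
  have h3 := hE ω x
  calc (if ω x = b then 2 * d + 2 - δ else 2 * d - δ) * ‖u x‖
      ≤ ‖((2 * d + pot ω x - E : ℝ) : ℂ) - ε * I‖ * ‖u x‖ :=
        mul_le_mul_of_nonneg_right (h3.trans h2) (norm_nonneg _)
    _ = ‖∑ i : Fin d, (u (x + ee i) + u (x - ee i))‖ := by rw [← norm_mul, e]
    _ ≤ ∑ i : Fin d, ‖u (x + ee i) + u (x - ee i)‖ := norm_sum_le _ _
    _ ≤ _ := Finset.sum_le_sum fun i _ => norm_add_le _ _

/-- the sum over the neighbours, when all values are at most `S` and one of them at most `T` -/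
lemma sum_nbr_le {u : V d → ℂ} {x : V d} {S T : ℝ} (hS : ∀ y ∈ Q x 1, ‖u y‖ ≤ S) {k : Fin d}
    (hT : ‖u (x + ee k)‖ ≤ T ∨ ‖u (x - ee k)‖ ≤ T) :
    ∑ i : Fin d, (‖u (x + ee i)‖ + ‖u (x - ee i)‖) ≤ (2 * d - 1) * S + T := by
  rw [← Finset.add_sum_erase _ _ (Finset.mem_univ k)]
  have h1 : ∑ i ∈ Finset.univ.erase k, (‖u (x + ee i)‖ + ‖u (x - ee i)‖) ≤
      ∑ i ∈ (Finset.univ.erase k : Finset (Fin d)), (2 * S) := by
    refine Finset.sum_le_sum fun i _ => ?_
    have := hS _ (add_ee_mem x i)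
    have := hS _ (sub_ee_mem x i)
    linarith
  have hc : ((Finset.univ.erase k : Finset (Fin d)).card : ℝ) = d - 1 := by
    rw [Finset.card_erase_of_mem (Finset.mem_univ k), Finset.card_univ, Fintype.card_fin]
    have : 1 ≤ d := Nat.one_le_iff_ne_zero.mpr (fun h => by subst h; exact k.elim0)
    push_cast [Nat.cast_sub this]; ring
  rw [Finset.sum_const, nsmul_eq_mul, hc] at h1
  have h2 : ‖u (x + ee k)‖ + ‖u (x - ee k)‖ ≤ S + T := by
    have a1 := hS _ (add_ee_mem x k)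
    have a2 := hS _ (sub_ee_mem x k)
    rcases hT with h | h <;> linarith
  nlinarith

/-- a neighbour closer to `z` inside the cube -/
lemma exists_closer {a y z : V d} {J : ℕ} (hy : y ∈ Q a J) (hz : z ∈ Q a J) (hne : y ≠ z) :
    ∃ (k : Fin d) (y' : V d), (y' = y + ee k ∨ y' = y - ee k) ∧ y' ∈ Q a J ∧
      (∑ i, |y' i - z i|) + 1 = ∑ i, |y i - z i| := by
  obtain ⟨k, hk⟩ := Function.ne_iff.mp hne
  rw [mem_Q] at hy hz
  have hyk := abs_le.mp (hy k)
  have hzk := abs_le.mp (hz k)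
  rcases lt_or_gt_of_ne hk with h | h
  · refine ⟨k, y + ee k, Or.inl rfl, ?_, ?_⟩
    · rw [mem_Q]
      intro j
      by_cases hj : j = k
      · subst hj
        simp only [Pi.add_apply, ee, Pi.single_eq_same]
        rw [abs_le]; constructor <;> linarith
      · simp only [Pi.add_apply, ee, Pi.single_eq_of_ne hj, add_zero]; exact hy j
    · rw [← Finset.add_sum_erase _ _ (Finset.mem_univ k),
        ← Finset.add_sum_erase Finset.univ (fun i => |y i - z i|) (Finset.mem_univ k)]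
      have e1 : ∑ i ∈ Finset.univ.erase k, |(y + ee k) i - z i|
          = ∑ i ∈ Finset.univ.erase k, |y i - z i| := by
        refine Finset.sum_congr rfl fun i hi => ?_
        simp only [Pi.add_apply, ee, Pi.single_eq_of_ne (Finset.ne_of_mem_erase hi), add_zero]
      rw [e1]
      simp only [Pi.add_apply, ee, Pi.single_eq_same]
      rw [abs_of_nonpos (by linarith), abs_of_neg (by linarith)]
      ring
  · refine ⟨k, y - ee k, Or.inr rfl, ?_, ?_⟩
    · rw [mem_Q]
      intro j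
      by_cases hj : j = k
      · subst hj
        simp only [Pi.sub_apply, ee, Pi.single_eq_same]
        rw [abs_le]; constructor <;> linarith
      · simp only [Pi.sub_apply, ee, Pi.single_eq_of_ne hj, sub_zero]; exact hy j
    · rw [← Finset.add_sum_erase _ _ (Finset.mem_univ k),
        ← Finset.add_sum_erase Finset.univ (fun i => |y i - z i|) (Finset.mem_univ k)]
      have e1 : ∑ i ∈ Finset.univ.erase k, |(y - ee k) i - z i|
          = ∑ i ∈ Finset.univ.erase k, |y i - z i| := by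
        refine Finset.sum_congr rfl fun i hi => ?_
        simp only [Pi.sub_apply, ee, Pi.single_eq_of_ne (Finset.ne_of_mem_erase hi), sub_zero]
      rw [e1]
      simp only [Pi.sub_apply, ee, Pi.single_eq_same]
      rw [abs_of_nonneg (by linarith), abs_of_pos (by linarith)]
      ring

/-- decay near a barrier -/
lemma near_barrier {b : Bool} {δ E ε : ℝ} (hd : 1 ≤ d) (hE : Edge d b δ E) {m : ℕ} (hδ0 : 0 ≤ δ)
    (hδ : δ ≤ (1 / (2 * d + 2)) * ((2 * d : ℝ)⁻¹) ^ m) {ω : V d → Bool}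
    {u : V d → ℂ} {a z : V d} {J : ℕ} (hu : ∀ x ∈ Q a J, hop ω u x = ((E : ℂ) + ε * I) * u x)
    {S : ℝ} (hS : ∀ x ∈ Q a (J + 1), ‖u x‖ ≤ S) (hz : z ∈ Q a J) (hb : ω z = b) :
    ∀ i : ℕ, i ≤ m → ∀ y ∈ Q a J, (∑ k, |y k - z k|) ≤ i →
      ‖u y‖ ≤ (1 - ((1 / (2 * d + 2)) * ((2 * d : ℝ)⁻¹) ^ i - δ)) * S := by
  have hd' : (1 : ℝ) ≤ d := by exact_mod_cast hd
  have hS0 : 0 ≤ S := (norm_nonneg _).trans (hS a (self_mem_Q a _))
  have hinv : (2 * d : ℝ)⁻¹ ≤ 1 := inv_le_one_of_one_le₀ (by linarith)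
  have hinv0 : (0 : ℝ) ≤ (2 * d : ℝ)⁻¹ := by positivity
  have hc0 : (1 : ℝ) / (2 * d + 2) ≤ 1 / 4 := by
    apply one_div_le_one_div_of_le <;> linarith
  have hδ1 : δ ≤ 1 / 4 := by
    refine hδ.trans ?_
    have : ((2 * d : ℝ)⁻¹) ^ m ≤ 1 := pow_le_one₀ hinv0 hinv
    have h0 : (0 : ℝ) ≤ 1 / (2 * d + 2) := by positivity
    nlinarith
  have nb : ∀ y ∈ Q a J, ∀ w ∈ Q y 1, ‖u w‖ ≤ S := fun y hy w hw => hS w (Q_trans hy hw)
  intro i
  induction i with
  | zero =>
    intro _ y hy hyz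
    have hyz' : y = z := by
      have h0 : ∑ k, |y k - z k| = 0 := le_antisymm (by simpa using hyz)
        (Finset.sum_nonneg fun k _ => abs_nonneg _)
      rw [Finset.sum_eq_zero_iff_of_nonneg (fun k _ => abs_nonneg _)] at h0
      funext k
      have := h0 k (Finset.mem_univ k)
      rw [abs_eq_zero] at this
      linarith
    subst hyz'
    have h1 := subsol hE (hu y hy)
    rw [if_pos hb] at h1
    have h2 := sum_nbr_le (nb y hy) (k := ⟨0, hd⟩) (Or.inl (nb y hy _ (add_ee_mem y _)))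
    have h3 : (2 * d + 2 - δ) * ‖u y‖ ≤ 2 * d * S := by linarith
    rw [pow_zero, mul_one]
    have hpos : (0 : ℝ) < 2 * d + 2 - δ := by linarith
    have h4 : ‖u y‖ ≤ 2 * d * S / (2 * d + 2 - δ) := by
      rw [le_div_iff₀ hpos]; linarith
    refine h4.trans ?_
    rw [div_le_iff₀ hpos]
    have key : (2 * d : ℝ) ≤ (1 - (1 / (2 * d + 2) - δ)) * (2 * d + 2 - δ) := by
      have e : (1 - (1 / (2 * d + 2) - δ)) * (2 * d + 2 - δ) - 2 * d
          = (2 - δ) - (2 * d + 2 - δ) / (2 * d + 2) + δ * (2 * d + 2 - δ) := by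
        field_simp; ring
      have e2 : (2 * d + 2 - δ) / (2 * d + 2) ≤ (1 : ℝ) := by
        rw [div_le_one (by linarith)]; linarith
      have e3 : 0 ≤ δ * (2 * d + 2 - δ) := mul_nonneg hδ0 hpos.le
      linarith
    calc 2 * d * S ≤ ((1 - (1 / (2 * d + 2) - δ)) * (2 * d + 2 - δ)) * S :=
          mul_le_mul_of_nonneg_right key hS0
      _ = _ := by ring
  | succ i ih =>
    intro him y hy hyz
    have ih' := ih (by omega)
    have hci : δ ≤ 1 / (2 * d + 2) * (2 * d : ℝ)⁻¹ ^ (i + 1) := by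
      refine hδ.trans ?_
      have : (2 * d : ℝ)⁻¹ ^ m ≤ (2 * d : ℝ)⁻¹ ^ (i + 1) := pow_le_pow_of_le_one hinv0 hinv him
      gcongr
    have hmon : (2 * d : ℝ)⁻¹ ^ (i + 1) ≤ (2 * d : ℝ)⁻¹ ^ i :=
      pow_le_pow_of_le_one hinv0 hinv (Nat.le_succ i)
    by_cases hle : (∑ k, |y k - z k|) ≤ i
    · refine (ih' y hy hle).trans ?_
      apply mul_le_mul_of_nonneg_right _ hS0
      have : 1 / (2 * d + 2) * (2 * d : ℝ)⁻¹ ^ (i + 1) ≤ 1 / (2 * d + 2) * (2 * d : ℝ)⁻¹ ^ i := by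
        gcongr
      linarith
    · have hne : y ≠ z := by
        rintro rfl
        apply hle
        simp
      obtain ⟨k, y', hy'1, hy'2, hy'3⟩ := exists_closer hy hz hne
      have h5 : (∑ k, |y' k - z k|) ≤ i := by
        push_cast at hyz
        linarith
      have h6 := ih' y' hy'2 h5
      set c : ℝ := 1 / (2 * d + 2) * (2 * d : ℝ)⁻¹ ^ i with hc
      have hcc : 1 / (2 * d + 2) * (2 * d : ℝ)⁻¹ ^ (i + 1) = c * (2 * d : ℝ)⁻¹ := by
        rw [hc, pow_succ]; ring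
      rw [hcc] at hci ⊢
      set e : ℝ := c * (2 * d : ℝ)⁻¹ with he
      have hce : c = e * (2 * d) := by rw [he]; field_simp
      have h1 := subsol hE (hu y hy)
      have h1' : (2 * d - δ) * ‖u y‖ ≤ ∑ i : Fin d, (‖u (y + ee i)‖ + ‖u (y - ee i)‖) := by
        refine le_trans ?_ h1
        apply mul_le_mul_of_nonneg_right _ (norm_nonneg _)
        split_ifs <;> linarith
      have h2 := sum_nbr_le (nb y hy) (k := k) (T := (1 - (c - δ)) * S) (by
        rcases hy'1 with h | h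
        · left; rw [← h]; exact h6
        · right; rw [← h]; exact h6)
      have hpos : (0 : ℝ) < 2 * d - δ := by linarith
      have h3 : (2 * d - δ) * ‖u y‖ ≤ (2 * d - (c - δ)) * S := by
        refine (h1'.trans h2).trans (le_of_eq ?_); ring
      have key : (2 * d - (c - δ) : ℝ) ≤ (1 - (e - δ)) * (2 * d - δ) := by
        have e3 : (1 - (e - δ)) * (2 * d - δ) - (2 * d - (c - δ))
            = (2 * d - 2) * δ + δ * (e - δ) := by
          rw [hce]; ring
        have e4 : 0 ≤ (2 * d - 2) * δ := mul_nonneg (by linarith) hδ0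
        have e5 : 0 ≤ δ * (e - δ) := mul_nonneg hδ0 (by linarith)
        linarith
      have h4 : (2 * d - δ) * ‖u y‖ ≤ (2 * d - δ) * ((1 - (e - δ)) * S) := by
        refine h3.trans ?_
        calc (2 * d - (c - δ)) * S ≤ ((1 - (e - δ)) * (2 * d - δ)) * S :=
              mul_le_mul_of_nonneg_right key hS0
          _ = _ := by ring
      exact le_of_mul_le_mul_left h4 hpos

/-- barriers are `ℓ`-dense in the cube -/
def Dense (ω : V d → Bool) (b : Bool) (ℓ L : ℕ) (a : V d) : Prop :=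
  ∀ x ∈ Q a (L - ℓ), ∃ z ∈ Q x ℓ, ω z = b

/-- decay at the initial scale -/
lemma good_of_dense {b : Bool} {δ E : ℝ} (hd : 1 ≤ d) (hE : Edge d b δ E) {ℓ L : ℕ} (hδ0 : 0 ≤ δ)
    {θ : ℝ} (hθ : θ = (1 / 2) * ((1 / (2 * d + 2)) * ((2 * d : ℝ)⁻¹) ^ (d * ℓ)))
    (hδ : δ ≤ θ) {ω : V d → Bool} {a : V d} (hω : Dense ω b ℓ L a) :
    Good ω E L ((1 - θ) ^ ((L + 1) / (ℓ + 1))) a := by
  have hd' : (1 : ℝ) ≤ d := by exact_mod_cast hd
  have hinv : (2 * d : ℝ)⁻¹ ≤ 1 := inv_le_one_of_one_le₀ (by linarith)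
  have hinv0 : (0 : ℝ) ≤ (2 * d : ℝ)⁻¹ := by positivity
  intro ε u S hu hS
  have hS0 : 0 ≤ S := (norm_nonneg _).trans (hS a (self_mem_Q a _))
  have hθ0 : 0 ≤ θ := by rw [hθ]; positivity
  have hθ1 : θ ≤ 1 := by
    rw [hθ]
    have h1 : (2 * d : ℝ)⁻¹ ^ (d * ℓ) ≤ 1 := pow_le_one₀ hinv0 hinv
    have h2 : (1 : ℝ) / (2 * d + 2) ≤ 1 := by
      rw [div_le_one (by linarith)]; linarith
    have h3 : (0 : ℝ) ≤ 1 / (2 * d + 2) := by positivity
    have h4 : (0 : ℝ) ≤ (2 * d : ℝ)⁻¹ ^ (d * ℓ) := by positivity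
    nlinarith
  have main : ∀ n : ℕ, n * (ℓ + 1) ≤ L + 1 →
      ∀ x ∈ Q a (L + 1 - n * (ℓ + 1)), ‖u x‖ ≤ (1 - θ) ^ n * S := by
    intro n
    induction n with
    | zero => intro _ x hx; simpa using hS x (by simpa using hx)
    | succ n ih =>
      intro hn x hx
      have hn' : n * (ℓ + 1) + (ℓ + 1) ≤ L + 1 := by
        rw [add_mul] at hn; omega
      have ih' := ih (by omega)
      set j := L + 1 - (n + 1) * (ℓ + 1) with hj
      have hj1 : j + ℓ + 1 = L + 1 - n * (ℓ + 1) := by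
        rw [hj, add_mul]; omega
      have hj2 : j + ℓ ≤ L := by
        omega
      obtain ⟨z, hz1, hz2⟩ := hω x (Q_mono (by omega) hx)
      have hz3 : z ∈ Q a (j + ℓ) := Q_trans hx hz1
      have hx3 : x ∈ Q a (j + ℓ) := Q_mono (by omega) hx
      have hdist : (∑ k, |x k - z k|) ≤ ((d * ℓ : ℕ) : ℤ) := by
        have : ∀ k ∈ (Finset.univ : Finset (Fin d)), |x k - z k| ≤ (ℓ : ℤ) := by
          intro k _
          rw [abs_sub_comm]
          exact (mem_Q.mp hz1) k
        refine (Finset.sum_le_sum this).trans ?_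
        simp
      have h := near_barrier hd hE (m := d * ℓ) hδ0 (by rw [hθ] at hδ; linarith [hδ, hδ0]) (ω := ω)
        (u := u) (a := a) (z := z) (J := j + ℓ) (ε := ε)
        (fun y hy => hu y (Q_mono hj2 hy)) (S := (1 - θ) ^ n * S)
        (fun y hy => ih' y (by rw [hj1] at hy; exact hy)) hz3 hz2 (d * ℓ) le_rfl x hx3 hdist
      refine h.trans ?_
      rw [pow_succ]
      have h7 : (1 - ((1 / (2 * d + 2)) * ((2 * d : ℝ)⁻¹) ^ (d * ℓ) - δ)) ≤ 1 - θ := by
        have : (1 / (2 * d + 2)) * ((2 * d : ℝ)⁻¹) ^ (d * ℓ) = 2 * θ := by rw [hθ]; ring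
        rw [this]; linarith
      have h8 : 0 ≤ (1 - θ) ^ n * S := mul_nonneg (pow_nonneg (by linarith) _) hS0
      calc _ ≤ (1 - θ) * ((1 - θ) ^ n * S) := mul_le_mul_of_nonneg_right h7 h8
        _ = _ := by ring
  have h := main ((L + 1) / (ℓ + 1)) (Nat.div_mul_le_self _ _)
  exact h a (self_mem_Q a _)

end Pool.Agent.H12R2.And
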