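import Pool.Agent.H12R2.And2

set_option autoImplicit false

/-! Probabilistic tools: fair independent signs on `ℤ^d`. -/

namespace Pool.Agent.H12R2.And

open Finset Complex MeasureTheory ProbabilityTheory
open scoped ENNReal

variable {d : ℕ}

/-- the law of the potential -/
noncomputable def PP (d : ℕ) : Measure (V d → Bool) :=
  Measure.infinitePi (fun _ : Fin d → ℤ => (PMF.uniformOfFintype Bool).toMeasure)

instance : IsProbabilityMeasure (PP d) := by
  unfold PP; infer_instance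

/-- `A` depends only on the coordinates in `F` -/
def Dep (F : Finset (V d)) (A : Set (V d → Bool)) : Prop :=
  ∀ ω ω' : V d → Bool, (∀ x ∈ F, ω x = ω' x) → ω ∈ A → ω' ∈ A

lemma Dep.mono {F G : Finset (V d)} {A : Set (V d → Bool)} (h : Dep F A) (hFG : F ⊆ G) :
    Dep G A := fun ω ω' h1 h2 => h ω ω' (fun x hx => h1 x (hFG hx)) h2

lemma Dep.compl {F : Finset (V d)} {A : Set (V d → Bool)} (h : Dep F A) : Dep F Aᶜ :=
  fun ω ω' h1 h2 h3 => h2 (h ω' ω (fun x hx => (h1 x hx).symm) h3)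

lemma Dep.eq_preimage {F : Finset (V d)} {A : Set (V d → Bool)} (h : Dep F A) :
    A = (fun (ω : V d → Bool) (x : F) => ω x) ⁻¹' {c | ∃ ω ∈ A, ∀ x : F, ω x = c x} := by
  ext ω
  constructor
  · intro hω; exact ⟨ω, hω, fun _ => rfl⟩
  · rintro ⟨ω', hω', h2⟩
    exact h ω' ω (fun x hx => h2 ⟨x, hx⟩) hω'

lemma Dep.measurable {F : Finset (V d)} {A : Set (V d → Bool)} (h : Dep F A) :
    MeasurableSet A := by
  rw [h.eq_preimage]
  have h1 : Measurable (fun (ω : V d → Bool) (x : F) => ω x) := by fun_prop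
  exact h1 (Set.toFinite _).measurableSet

lemma Dep.indep {F G : Finset (V d)} {A B : Set (V d → Bool)} (hA : Dep F A) (hB : Dep G B)
    (hFG : Disjoint F G) : (PP d).real (A ∩ B) = (PP d).real A * (PP d).real B := by
  have h1 : iIndepFun (fun (i : V d) (ω : V d → Bool) => ω i) (PP d) := by
    unfold PP
    exact iIndepFun_infinitePi (X := fun _ ω => ω) (fun _ => measurable_id)
  have h2 := h1.indepFun_finset F G hFG (fun i => measurable_pi_apply i)
  rw [indepFun_iff_measure_inter_preimage_eq_mul] at h2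
  have h3 := h2 {c | ∃ ω ∈ A, ∀ x : F, ω x = c x} {c | ∃ ω ∈ B, ∀ x : G, ω x = c x}
    (Set.toFinite _).measurableSet (Set.toFinite _).measurableSet
  rw [← hA.eq_preimage, ← hB.eq_preimage] at h3
  unfold Measure.real
  rw [h3, ENNReal.toReal_mul]

/-- translation of configurations -/
def shift (a : V d) (ω : V d → Bool) : V d → Bool := fun x => ω (x + a)

lemma map_shift (a : V d) : (PP d).map (shift a) = PP d := by
  have h := Measure.map_infinitePi_infinitePi_of_inj
    (P := fun _ : V d => (PMF.uniformOfFintype Bool).toMeasure) (f := fun x : V d => x + a)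
    (fun x y h => by simpa using h)
  exact h

lemma measurable_shift (a : V d) : Measurable (shift (d := d) a) := by
  unfold shift; fun_prop

lemma real_shift (a : V d) {A : Set (V d → Bool)} (hA : MeasurableSet A) :
    (PP d).real (shift a ⁻¹' A) = (PP d).real A := by
  have := map_measureReal_apply (measurable_shift a) hA (μ := PP d)
  rw [map_shift] at this
  exact this.symm

lemma real_forall_eq (F : Finset (V d)) (b : Bool) :
    (PP d).real {ω | ∀ x ∈ F, ω x = b} = (1 / 2 : ℝ) ^ F.card := by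
  have h1 : {ω : V d → Bool | ∀ x ∈ F, ω x = b} = Set.pi (F : Set (V d)) (fun _ => {b}) := by
    ext ω; simp [Set.mem_pi]
  rw [h1]
  unfold Measure.real PP
  rw [Measure.infinitePi_pi _ (fun i _ => measurableSet_singleton b)]
  have h2 : (PMF.uniformOfFintype Bool).toMeasure {b} = 2⁻¹ := by
    rw [PMF.toMeasure_apply_singleton _ _ (measurableSet_singleton b),
      PMF.uniformOfFintype_apply]
    simp
  rw [Finset.prod_congr rfl (fun _ _ => h2)]
  simp

lemma dep_dense (b : Bool) (ℓ L : ℕ) (hℓ : ℓ ≤ L) (a : V d) :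
    Dep (Q a L) {ω | Dense ω b ℓ L a} := by
  intro ω ω' h1 h2 x hx
  obtain ⟨z, hz, hz2⟩ := h2 x hx
  refine ⟨z, hz, ?_⟩
  rw [← h1 z ?_]
  · exact hz2
  · have := Q_trans hx hz
    rwa [Nat.sub_add_cancel hℓ] at this

lemma not_dense_le (b : Bool) (ℓ L : ℕ) (a : V d) :
    (PP d).real {ω | ¬ Dense ω b ℓ L a} ≤ (2 * L + 1) ^ d * (1 / 2 : ℝ) ^ ((2 * ℓ + 1) ^ d) := by
  have h1 : {ω | ¬ Dense ω b ℓ L a} ⊆ ⋃ x ∈ Q a (L - ℓ), {ω : V d → Bool | ∀ z ∈ Q x ℓ, ω z = !b} := by
    intro ω hω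
    simp only [Dense, Set.mem_ofPred_eq, not_forall, not_exists, not_and] at hω
    obtain ⟨x, hx, h⟩ := hω
    simp only [Set.mem_iUnion]
    refine ⟨x, hx, fun z hz => ?_⟩
    have := h z hz
    revert this
    cases ω z <;> cases b <;> simp
  calc (PP d).real {ω | ¬ Dense ω b ℓ L a}
      ≤ (PP d).real (⋃ x ∈ Q a (L - ℓ), {ω : V d → Bool | ∀ z ∈ Q x ℓ, ω z = !b}) :=
        measureReal_mono h1 (measure_ne_top _ _)
    _ ≤ ∑ x ∈ Q a (L - ℓ), (PP d).real {ω : V d → Bool | ∀ z ∈ Q x ℓ, ω z = !b} :=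
        measureReal_biUnion_finset_le _ _
    _ = ∑ x ∈ Q a (L - ℓ), (1 / 2 : ℝ) ^ ((2 * ℓ + 1) ^ d) := by
        refine Finset.sum_congr rfl fun x _ => ?_
        rw [real_forall_eq, card_Q]
    _ = ((2 * (L - ℓ : ℕ) + 1) ^ d : ℕ) * (1 / 2 : ℝ) ^ ((2 * ℓ + 1) ^ d) := by
        rw [Finset.sum_const, card_Q, nsmul_eq_mul]
    _ ≤ _ := by
        push_cast
        have : ((L - ℓ : ℕ) : ℝ) ≤ L := by exact_mod_cast Nat.sub_le L ℓ
        gcongr

/-- joint measurability of sets depending on finitely many signs -/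
lemma measurable_of_dep {S : Set ((V d → Bool) × ℝ)} (F : Finset (V d))
    (hdep : ∀ E, Dep F {ω | (ω, E) ∈ S}) (hm : ∀ ω, MeasurableSet {E | (ω, E) ∈ S}) :
    MeasurableSet S := by
  classical
  let ext : (F → Bool) → (V d → Bool) := fun c x => if h : x ∈ F then c ⟨x, h⟩ else false
  have h : S = ⋃ c : F → Bool, ({ω : V d → Bool | (fun x : F => ω x) = c} ×ˢ
      {E | (ext c, E) ∈ S}) := by
    ext ⟨ω, E⟩
    simp only [Set.mem_iUnion, Set.mem_prod, Set.mem_ofPred_eq]
    constructor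
    · intro hS
      refine ⟨fun x => ω x, rfl, ?_⟩
      refine hdep E ω _ ?_ hS
      intro x hx
      simp [ext, hx]
    · rintro ⟨c, hc, hS⟩
      refine hdep E _ ω ?_ hS
      intro x hx
      subst hc
      simp [ext, hx]
  rw [h]
  refine MeasurableSet.iUnion fun c => MeasurableSet.prod ?_ (hm _)
  have h1 : Measurable (fun (ω : V d → Bool) (x : F) => ω x) := by fun_prop
  exact h1 (measurableSet_singleton c)

end Pool.Agent.H12R2.And
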