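import Pool.Agent.H12R2.And3

set_option autoImplicit false

/-! Non-resonance for most energies. -/

namespace Pool.Agent.H12R2.And

open Finset Complex MeasureTheory ProbabilityTheory
open scoped ENNReal

variable {d : ℕ}

/-- the matrix of the operator restricted to `D` -/
noncomputable def mat (ω : V d → Bool) (D : Finset (V d)) : Matrix D D ℂ :=
  Matrix.of fun x y => (ker ω x y : ℂ)

lemma mat_herm (ω : V d → Bool) (D : Finset (V d)) : (mat ω D).IsHermitian := by
  ext x y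
  simp [mat, Matrix.conjTranspose_apply, ker_symm ω x y]

/-- the restricted operator -/
noncomputable def TT (ω : V d → Bool) (D : Finset (V d)) :
    EuclideanSpace ℂ D →ₗ[ℂ] EuclideanSpace ℂ D := Matrix.toEuclideanLin (mat ω D)

lemma TT_symm (ω : V d → Bool) (D : Finset (V d)) : (TT ω D).IsSymmetric :=
  Matrix.isSymmetric_toEuclideanLin_iff.2 (mat_herm ω D)

lemma TT_apply (ω : V d → Bool) (D : Finset (V d)) (v : V d → ℂ) (hv : ∀ x ∉ D, v x = 0) (x : D) :
    (TT ω D (WithLp.toLp 2 fun y : D => v y)) x = hop ω v x := by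
  rw [hop_eq_ker hv]
  unfold TT
  rw [Matrix.toLpLin_apply]
  simp only [Matrix.mulVec, dotProduct, mat, Matrix.of_apply]
  exact Finset.sum_coe_sort D (fun y => (ker ω x y : ℂ) * v y)

lemma finrank_D (D : Finset (V d)) : Module.finrank ℂ (EuclideanSpace ℂ D) = D.card := by
  simp

/-- eigenvalues of the restricted operator -/
noncomputable def ev (ω : V d → Bool) (D : Finset (V d)) : Fin D.card → ℝ :=
  (TT_symm ω D).eigenvalues (finrank_D D)

lemma NR_of_ev {ω : V d → Bool} {D : Finset (V d)} {E τ : ℝ} (hτ : 0 ≤ τ)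
    (h : ∀ i, τ ≤ |ev ω D i - E|) : NR ω E D τ := by
  intro v hv
  set w : EuclideanSpace ℂ D := WithLp.toLp 2 fun y : D => v y with hw
  have e1 : ∑ x ∈ D, ‖v x‖ ^ 2 = ‖w‖ ^ 2 := by
    rw [EuclideanSpace.norm_sq_eq]
    exact (Finset.sum_coe_sort D (fun x => ‖v x‖ ^ 2)).symm
  have e2 : ∑ x ∈ D, ‖hop ω v x - (E : ℂ) * v x‖ ^ 2 = ‖TT ω D w - (E : ℂ) • w‖ ^ 2 := by
    rw [EuclideanSpace.norm_sq_eq, ← Finset.sum_coe_sort D
      (fun x => ‖hop ω v x - (E : ℂ) * v x‖ ^ 2)]
    refine Finset.sum_congr rfl fun x _ => ?_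
    rw [PiLp.sub_apply, PiLp.smul_apply, TT_apply ω D v hv x]
    rfl
  rw [e1, e2]
  set B := (TT_symm ω D).eigenvectorBasis (finrank_D D) with hB
  have e3 : ∀ z : EuclideanSpace ℂ D, ‖z‖ ^ 2 = ∑ i, ‖B.repr z i‖ ^ 2 := by
    intro z
    rw [← EuclideanSpace.norm_sq_eq, LinearIsometryEquiv.norm_map]
  rw [e3 w, e3 (TT ω D w - (E : ℂ) • w), Finset.mul_sum]
  refine Finset.sum_le_sum fun i _ => ?_
  have e4 : B.repr (TT ω D w - (E : ℂ) • w) i = ((ev ω D i - E : ℝ) : ℂ) * B.repr w i := by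
    have e5 : B.repr (TT ω D w) i = (ev ω D i : ℂ) * B.repr w i :=
      LinearMap.IsSymmetric.eigenvectorBasis_apply_self_apply _ _ w i
    rw [map_sub, map_smul, PiLp.sub_apply, PiLp.smul_apply, e5]
    push_cast
    rw [smul_eq_mul]
    ring
  rw [e4, norm_mul, mul_pow, Complex.norm_real, Real.norm_eq_abs]
  have := pow_le_pow_left₀ hτ (h i) 2
  gcongr

lemma isClosed_NR (ω : V d → Bool) (D : Finset (V d)) (τ : ℝ) : IsClosed {E | NR ω E D τ} := by
  have : {E | NR ω E D τ} = ⋂ (v : V d → ℂ) (_ : ∀ x ∉ D, v x = 0),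
      {E : ℝ | τ ^ 2 * ∑ x ∈ D, ‖v x‖ ^ 2 ≤ ∑ x ∈ D, ‖hop ω v x - (E : ℂ) * v x‖ ^ 2} := by
    ext E; simp [NR]
  rw [this]
  refine isClosed_iInter fun v => isClosed_iInter fun _ => ?_
  exact isClosed_le continuous_const (by fun_prop)

lemma volume_not_NR (ω : V d → Bool) (D : Finset (V d)) {τ : ℝ} (hτ : 0 ≤ τ) :
    volume {E | ¬ NR ω E D τ} ≤ ENNReal.ofReal (2 * τ * D.card) := by
  have h1 : {E | ¬ NR ω E D τ} ⊆ ⋃ i : Fin D.card, Metric.ball (ev ω D i) τ := by
    intro E hE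
    simp only [Set.mem_ofPred_eq] at hE
    by_contra hc
    apply hE
    apply NR_of_ev hτ
    intro i
    simp only [Set.mem_iUnion, not_exists, Metric.mem_ball, not_lt] at hc
    have := hc i
    rwa [Real.dist_eq, abs_sub_comm] at this
  calc volume {E | ¬ NR ω E D τ} ≤ volume (⋃ i : Fin D.card, Metric.ball (ev ω D i) τ) :=
        measure_mono h1
    _ ≤ ∑ i : Fin D.card, volume (Metric.ball (ev ω D i) τ) := measure_iUnion_fintype_le _ _
    _ = ∑ i : Fin D.card, ENNReal.ofReal (2 * τ) := by simp [Real.volume_ball]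
    _ = ENNReal.ofReal (2 * τ * D.card) := by
        rw [Finset.sum_const, Finset.card_univ, Fintype.card_fin, nsmul_eq_mul,
          ← ENNReal.ofReal_natCast, ← ENNReal.ofReal_mul (by positivity)]
        congr 1; ring

/-! translation covariance -/

lemma hop_shift (a : V d) (ω : V d → Bool) (v : V d → ℂ) (x : V d) :
    hop (shift a ω) (fun y => v (y + a)) x = hop ω v (x + a) := by
  unfold hop shift
  have h1 : ∀ i : Fin d, x + ee i + a = x + a + ee i := fun i => by abel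
  have h2 : ∀ i : Fin d, x - ee i + a = x + a - ee i := fun i => by abel
  simp only [h1, h2]

lemma mem_Q_shift {a x : V d} {n : ℕ} : x ∈ Q 0 n ↔ x + a ∈ Q a n := by
  rw [mem_Q, mem_Q]
  refine forall_congr' fun i => ?_
  simp

lemma sum_Q_shift (a : V d) (n : ℕ) (f : V d → ℝ) : ∑ x ∈ Q a n, f x = ∑ x ∈ Q 0 n, f (x + a) := by
  symm
  refine Finset.sum_bij (fun x _ => x + a) ?_ ?_ ?_ ?_
  · intro x hx; exact mem_Q_shift.1 hx
  · intro x _ y _ h; simpa using h
  · intro y hy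
    refine ⟨y - a, ?_, by abel⟩
    rw [mem_Q_shift (a := a), sub_add_cancel]; exact hy
  · intro x _; rfl

lemma NR_shift (a : V d) (ω : V d → Bool) (E : ℝ) (n : ℕ) (τ : ℝ) :
    NR (shift a ω) E (Q 0 n) τ ↔ NR ω E (Q a n) τ := by
  constructor
  · intro h v hv
    have h1 := h (fun y => v (y + a)) (fun x hx => hv _ (fun hc => hx (mem_Q_shift.2 hc)))
    simp only [hop_shift] at h1
    rw [sum_Q_shift a n (fun x => ‖v x‖ ^ 2),
      sum_Q_shift a n (fun x => ‖hop ω v x - (E : ℂ) * v x‖ ^ 2)]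
    exact h1
  · intro h v hv
    have h1 := h (fun y => v (y - a)) (fun x hx => hv _ (fun hc => hx (by
      have := mem_Q_shift (a := a).1 hc
      rwa [sub_add_cancel] at this)))
    rw [sum_Q_shift a n, sum_Q_shift a n] at h1
    have h2 : ∀ x, hop ω (fun y => v (y - a)) (x + a) = hop (shift a ω) v x := by
      intro x
      rw [← hop_shift]
      simp
    simp only [h2, add_sub_cancel_right] at h1
    exact h1

lemma hop_congr {ω ω' : V d → Bool} {v : V d → ℂ} {x : V d} (h : ω x = ω' x) :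
    hop ω v x = hop ω' v x := by
  unfold hop; rw [h]

lemma dep_NR (E : ℝ) (D : Finset (V d)) (τ : ℝ) : Dep D {ω | NR ω E D τ} := by
  intro ω ω' h1 h2 v hv
  have h3 := h2 v hv
  refine h3.trans (le_of_eq ?_)
  refine Finset.sum_congr rfl fun x hx => ?_
  rw [hop_congr (h1 x hx)]

end Pool.Agent.H12R2.And
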