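import Pool.Agent.H12R2.And4

set_option autoImplicit false

/-! The multiscale analysis at a fixed energy. -/

namespace Pool.Agent.H12R2.And

open Finset Complex MeasureTheory ProbabilityTheory
open scoped ENNReal

variable {d : ℕ}

/-- non-resonance of three concentric cubes at scale `L` -/
def RR (r : ℕ) (ω : V d → Bool) (E : ℝ) (L : ℕ) (a : V d) : Prop :=
  ∀ j : ℕ, j < 3 → NR ω E (Q a ((3 * j + 2) * L - 1)) ((L : ℝ) ^ r)⁻¹

/-- the good events of the multiscale analysis -/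
def GG (b : Bool) (ℓ r L0 : ℕ) : ℕ → (V d → Bool) → ℝ → V d → Prop
  | 0, ω, _, a => Dense ω b ℓ L0 a
  | k + 1, ω, E, a => RR r ω E (10 ^ k * L0) a ∧ ∃ i j : ℕ, i < j ∧ j < 3 ∧
      (∀ w : V d, w ∈ Q a ((3 * i + 2) * (10 ^ k * L0)) →
        w ∉ Q a ((3 * i + 2) * (10 ^ k * L0) - 1) → GG b ℓ r L0 k ω E w) ∧
      (∀ w : V d, w ∈ Q a ((3 * j + 2) * (10 ^ k * L0)) →
        w ∉ Q a ((3 * j + 2) * (10 ^ k * L0) - 1) → GG b ℓ r L0 k ω E w)

lemma Good.mono {ω : V d → Bool} {E κ κ' : ℝ} {L : ℕ} {a : V d} (h : Good ω E L κ a)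
    (hκ : κ ≤ κ') : Good ω E L κ' a := by
  intro ε u S hu hS
  have hS0 : 0 ≤ S := (norm_nonneg _).trans (hS a (self_mem_Q a _))
  exact (h ε u S hu hS).trans (mul_le_mul_of_nonneg_right hκ hS0)

lemma numeric_step {r M L : ℕ} (hM : 2 * (r + d) + 1 ≤ M) (hL : 1 ≤ L)
    (hL0 : (2 * d * 17 ^ d) ^ 2 * 10 ^ M ≤ L) :
    ((2 * d * 17 ^ d * (L : ℝ) ^ (r + d)) * ((L : ℝ) ^ M)⁻¹) ^ 2 ≤ (((10 * L : ℕ) : ℝ) ^ M)⁻¹ := by
  have hL' : (1 : ℝ) ≤ L := by exact_mod_cast hL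
  have hLp : (0 : ℝ) < L := by linarith
  have h1 : ((2 * d * 17 ^ d) ^ 2 * 10 ^ M : ℝ) ≤ L := by exact_mod_cast hL0
  rw [mul_pow, inv_pow, ← div_eq_mul_inv, div_le_iff₀ (by positivity), inv_mul_eq_div,
    le_div_iff₀ (by positivity)]
  push_cast
  calc (2 * d * 17 ^ d * (L : ℝ) ^ (r + d)) ^ 2 * (10 * L) ^ M
      = ((2 * d * 17 ^ d) ^ 2 * 10 ^ M) * (L : ℝ) ^ (2 * (r + d)) * (L : ℝ) ^ M := by
        have e : (L : ℝ) ^ (2 * (r + d)) = ((L : ℝ) ^ (r + d)) ^ 2 := by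
          rw [← pow_mul, mul_comm]
        rw [e]; ring
    _ ≤ L * (L : ℝ) ^ (2 * (r + d)) * (L : ℝ) ^ M := by gcongr
    _ = (L : ℝ) ^ (2 * (r + d) + 1) * (L : ℝ) ^ M := by ring
    _ ≤ (L : ℝ) ^ M * (L : ℝ) ^ M := by gcongr
    _ = ((L : ℝ) ^ M) ^ 2 := by ring

lemma good_of_GG {b : Bool} {ℓ r L0 M : ℕ} (hd : 1 ≤ d) (hM : 2 * (r + d) + 1 ≤ M) (h1 : 1 ≤ L0)
    (hL0 : (2 * d * 17 ^ d) ^ 2 * 10 ^ M ≤ L0) {E : ℝ}
    (h0 : ∀ (ω : V d → Bool) (a : V d), Dense ω b ℓ L0 a → Good ω E L0 (((L0 : ℝ) ^ M)⁻¹) a) :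
    ∀ (k : ℕ) (ω : V d → Bool) (a : V d), GG b ℓ r L0 k ω E a →
      Good ω E (10 ^ k * L0) ((((10 ^ k * L0 : ℕ) : ℝ) ^ M)⁻¹) a := by
  intro k
  induction k with
  | zero => intro ω a h; simpa using h0 ω a h
  | succ k ih =>
    rintro ω a ⟨hR, i, j, hij, hj, hi', hj'⟩
    set L := 10 ^ k * L0 with hLdef
    have hL1 : 1 ≤ L := Nat.one_le_iff_ne_zero.mpr (by positivity)
    have hLL0 : L0 ≤ L := Nat.le_mul_of_pos_left _ (by positivity)
    have hL' : (1 : ℝ) ≤ L := by exact_mod_cast hL1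
    have hd' : (1 : ℝ) ≤ d := by exact_mod_cast hd
    have e10 : 10 ^ (k + 1) * L0 = 10 * L := by rw [hLdef]; ring
    rw [e10]
    have hKκ := numeric_step (d := d) hM hL1 (hL0.trans hLL0)
    refine Good.mono ?_ hKκ
    have hi3 : i < 3 := by omega
    refine good_of_two_shells (τ := ((L : ℝ) ^ r)⁻¹) (L := L) (ρ₁ := (3 * i + 2) * L)
      (ρ₂ := (3 * j + 2) * L) (by positivity) (by positivity) ?_ ?_ ?_ ?_ ?_ (hR i hi3) (hR j hj)
      (fun w hw hw' => ih ω w (hi' w hw hw')) (fun w hw hw' => ih ω w (hj' w hw hw'))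
    · have : (1 : ℝ) ≤ 2 * d * 17 ^ d := by
        have : (1 : ℝ) ≤ 17 ^ d := one_le_pow₀ (by norm_num)
        nlinarith
      have h2 : (1 : ℝ) ≤ (L : ℝ) ^ (r + d) := one_le_pow₀ hL'
      nlinarith
    · nlinarith
    · nlinarith
    · nlinarith
    · rw [inv_inv]
      have h8 : (2 * (((3 * j + 2) * L : ℕ) : ℝ) + 1) ≤ 17 * L := by
        have : (3 * j + 2) * L ≤ 8 * L := Nat.mul_le_mul_right _ (by omega)
        have h9 : (((3 * j + 2) * L : ℕ) : ℝ) ≤ 8 * L := by exact_mod_cast this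
        linarith
      have h0' : (0 : ℝ) ≤ 2 * (((3 * j + 2) * L : ℕ) : ℝ) + 1 := by positivity
      calc (L : ℝ) ^ r * (2 * d * (2 * (((3 * j + 2) * L : ℕ) : ℝ) + 1) ^ d)
          ≤ (L : ℝ) ^ r * (2 * d * (17 * L) ^ d) := by gcongr
        _ = 2 * d * 17 ^ d * (L : ℝ) ^ (r + d) := by
            rw [mul_pow, pow_add]; ring

lemma dep_RR (r : ℕ) (E : ℝ) (L : ℕ) (a : V d) : Dep (Q a (8 * L)) {ω | RR r ω E L a} := by
  intro ω ω' h1 h2 j hj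
  refine dep_NR E _ _ ω ω' (fun x hx => h1 x (Q_mono ?_ hx)) (h2 j hj)
  have : (3 * j + 2) * L ≤ 8 * L := Nat.mul_le_mul_right _ (by omega)
  omega

lemma dep_GG (b : Bool) {ℓ r L0 : ℕ} (hℓ : ℓ ≤ L0) (E : ℝ) : ∀ (k : ℕ) (a : V d),
    Dep (Q a (10 ^ k * L0)) {ω | GG b ℓ r L0 k ω E a} := by
  intro k
  induction k with
  | zero => intro a; simpa [GG] using dep_dense b ℓ L0 hℓ a
  | succ k ih =>
    intro a
    have e10 : 10 ^ (k + 1) * L0 = 10 * (10 ^ k * L0) := by ring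
    rw [e10]
    set L := 10 ^ k * L0 with hLdef
    have key : ∀ (ω ω' : V d → Bool), (∀ x ∈ Q a (10 * L), ω x = ω' x) → ∀ j, j < 3 →
        (∀ w : V d, w ∈ Q a ((3 * j + 2) * L) → w ∉ Q a ((3 * j + 2) * L - 1) →
          GG b ℓ r L0 k ω E w) →
        (∀ w : V d, w ∈ Q a ((3 * j + 2) * L) → w ∉ Q a ((3 * j + 2) * L - 1) →
          GG b ℓ r L0 k ω' E w) := by
      intro ω ω' h1 j hj h w hw hw'
      refine ih w ω ω' (fun x hx => h1 x ?_) (h w hw hw')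
      refine Q_mono ?_ (Q_trans hw hx)
      have : (3 * j + 2) * L ≤ 8 * L := Nat.mul_le_mul_right _ (by omega)
      omega
    rintro ω ω' h1 ⟨hR, i, j, hij, hj, hi', hj'⟩
    refine ⟨dep_RR r E L a ω ω' (fun x hx => h1 x (Q_mono (by omega) hx)) hR, i, j, hij, hj,
      key ω ω' h1 i (by omega) hi', key ω ω' h1 j hj hj'⟩

lemma meas_RR (r : ℕ) (ω : V d → Bool) (L : ℕ) (a : V d) : Measurable (fun E => RR r ω E L a) := by
  unfold RR
  refine Measurable.forall fun j => Measurable.imp measurable_const ?_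
  exact measurableSet_setOfPred.1 (isClosed_NR ω _ _).measurableSet

lemma meas_GG (b : Bool) (ℓ r L0 : ℕ) (ω : V d → Bool) : ∀ (k : ℕ) (a : V d),
    Measurable (fun E => GG b ℓ r L0 k ω E a) := by
  intro k
  induction k with
  | zero => intro a; simp only [GG]; exact measurable_const
  | succ k ih =>
    intro a
    simp only [GG]
    refine (meas_RR r ω _ a).and ?_
    refine Measurable.exists fun i => Measurable.exists fun j => ?_
    refine measurable_const.and (measurable_const.and (Measurable.and ?_ ?_))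
    · exact Measurable.forall fun w => Measurable.imp measurable_const
        (Measurable.imp measurable_const (ih w))
    · exact Measurable.forall fun w => Measurable.imp measurable_const
        (Measurable.imp measurable_const (ih w))

lemma joint_RR (r L : ℕ) (a : V d) :
    MeasurableSet {p : (V d → Bool) × ℝ | RR r p.1 p.2 L a} :=
  measurable_of_dep (Q a (8 * L)) (fun E => dep_RR r E L a)
    (fun ω => measurableSet_setOfPred.2 (meas_RR r ω L a))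

lemma joint_GG (b : Bool) {ℓ r L0 : ℕ} (hℓ : ℓ ≤ L0) (k : ℕ) (a : V d) :
    MeasurableSet {p : (V d → Bool) × ℝ | GG b ℓ r L0 k p.1 p.2 a} :=
  measurable_of_dep (Q a (10 ^ k * L0)) (fun E => dep_GG b hℓ E k a)
    (fun ω => measurableSet_setOfPred.2 (meas_GG b ℓ r L0 ω k a))

lemma RR_shift (r : ℕ) (a : V d) (ω : V d → Bool) (E : ℝ) (L : ℕ) :
    RR r (shift a ω) E L 0 ↔ RR r ω E L a := by
  unfold RR
  exact forall_congr' fun j => imp_congr_right fun _ => NR_shift a ω E _ _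

lemma real_not_RR (r : ℕ) (a : V d) (E : ℝ) (L : ℕ) :
    (PP d).real {ω | ¬ RR r ω E L a} = (PP d).real {ω | ¬ RR r ω E L 0} := by
  have h1 : {ω : V d → Bool | ¬ RR r ω E L a} = shift a ⁻¹' {ω | ¬ RR r ω E L 0} := by
    ext ω
    simp only [Set.mem_ofPred_eq, Set.mem_preimage, RR_shift]
  rw [h1, real_shift]
  exact (dep_RR r E L 0).compl.measurable

/-- the event that all cubes around a shell are good -/
def Sh (b : Bool) (ℓ r L0 k : ℕ) (E : ℝ) (a : V d) (j : ℕ) : Set (V d → Bool) :=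
  {ω | ∀ w : V d, w ∈ Q a ((3 * j + 2) * (10 ^ k * L0)) →
        w ∉ Q a ((3 * j + 2) * (10 ^ k * L0) - 1) → GG b ℓ r L0 k ω E w}

lemma dep_Sh (b : Bool) {ℓ r L0 : ℕ} (hℓ : ℓ ≤ L0) (hL0 : 1 ≤ L0) (k : ℕ) (E : ℝ) (a : V d)
    (j : ℕ) : Dep (Q a ((3 * j + 2) * (10 ^ k * L0) + 10 ^ k * L0) \
      Q a ((3 * j + 2) * (10 ^ k * L0) - (10 ^ k * L0 + 1))) (Sh b ℓ r L0 k E a j) := by
  intro ω ω' h1 h2 w hw hw'
  refine dep_GG b hℓ E k w ω ω' (fun x hx => h1 x ?_) (h2 w hw hw')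
  rw [Finset.mem_sdiff]
  refine ⟨Q_trans hw hx, fun hc => hw' ?_⟩
  have := Q_trans hc (Q_symm.1 hx)
  refine Q_mono ?_ this
  have hL : 1 ≤ 10 ^ k * L0 := Nat.one_le_iff_ne_zero.mpr (by positivity)
  have : 2 * (10 ^ k * L0) ≤ (3 * j + 2) * (10 ^ k * L0) := Nat.mul_le_mul_right _ (by omega)
  omega

lemma prob_Sh (b : Bool) {ℓ r L0 : ℕ} (k : ℕ) (E : ℝ) (a : V d) {j : ℕ} (hL0 : 1 ≤ L0)
    (hj : j < 3) {q : ℝ} (hq : ∀ a : V d, (PP d).real {ω | ¬ GG b ℓ r L0 k ω E a} ≤ q) :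
    (PP d).real (Sh b ℓ r L0 k E a j)ᶜ ≤ (17 * (10 ^ k * L0 : ℕ)) ^ d * q := by
  have hq0 : 0 ≤ q := measureReal_nonneg.trans (hq a)
  have h1 : (Sh b ℓ r L0 k E a j)ᶜ ⊆
      ⋃ w ∈ Q a ((3 * j + 2) * (10 ^ k * L0)), {ω | ¬ GG b ℓ r L0 k ω E w} := by
    intro ω hω
    simp only [Sh, Set.mem_compl_iff, Set.mem_ofPred_eq, not_forall] at hω
    obtain ⟨w, hw, _, h⟩ := hω
    simp only [Set.mem_iUnion]
    exact ⟨w, hw, h⟩
  calc (PP d).real (Sh b ℓ r L0 k E a j)ᶜ ≤ _ := measureReal_mono h1 (measure_ne_top _ _)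
    _ ≤ ∑ w ∈ Q a ((3 * j + 2) * (10 ^ k * L0)), (PP d).real {ω | ¬ GG b ℓ r L0 k ω E w} :=
        measureReal_biUnion_finset_le _ _
    _ ≤ ∑ w ∈ Q a ((3 * j + 2) * (10 ^ k * L0)), q := Finset.sum_le_sum fun w _ => hq w
    _ = ((2 * ((3 * j + 2) * (10 ^ k * L0)) + 1) ^ d : ℕ) * q := by
        rw [Finset.sum_const, card_Q, nsmul_eq_mul]
    _ ≤ (17 * (10 ^ k * L0 : ℕ)) ^ d * q := by
        have h8 : 2 * ((3 * j + 2) * (10 ^ k * L0)) + 1 ≤ 17 * (10 ^ k * L0) := by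
          have : (3 * j + 2) * (10 ^ k * L0) ≤ 8 * (10 ^ k * L0) :=
            Nat.mul_le_mul_right _ (by omega)
          have hL : 1 ≤ 10 ^ k * L0 := Nat.one_le_iff_ne_zero.mpr (by positivity)
          omega
        have h9 : ((2 * ((3 * j + 2) * (10 ^ k * L0)) + 1 : ℕ) : ℝ) ≤ 17 * (10 ^ k * L0 : ℕ) := by
          exact_mod_cast h8
        rw [Nat.cast_pow]
        gcongr

lemma numeric_prob {L : ℕ} (hL : 1 ≤ L) (h : 6 * 17 ^ (2 * d) * 10 ^ (2 * d + 1) ≤ L) :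
    3 * ((17 * (L : ℝ)) ^ d * ((L : ℝ) ^ (2 * d + 1))⁻¹) ^ 2 + ((L : ℝ) ^ (2 * d + 2))⁻¹
      ≤ (((10 * L : ℕ) : ℝ) ^ (2 * d + 1))⁻¹ := by
  have hL' : (1 : ℝ) ≤ L := by exact_mod_cast hL
  have hLp : (0 : ℝ) < L := by linarith
  have h1 : (6 * 17 ^ (2 * d) * 10 ^ (2 * d + 1) : ℝ) ≤ L := by exact_mod_cast h
  have h2 : (2 * 10 ^ (2 * d + 1) : ℝ) ≤ L := by
    refine le_trans ?_ h1
    have : (1 : ℝ) ≤ 17 ^ (2 * d) := one_le_pow₀ (by norm_num)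
    have h3 : (0 : ℝ) < 10 ^ (2 * d + 1) := by positivity
    nlinarith
  have e1 : 3 * ((17 * (L : ℝ)) ^ d * ((L : ℝ) ^ (2 * d + 1))⁻¹) ^ 2
      = 3 * 17 ^ (2 * d) * ((L : ℝ) ^ (2 * d + 2))⁻¹ := by
    rw [mul_pow 17 (L : ℝ)]
    have : ((L : ℝ) ^ (2 * d + 1)) ^ 2 = (L : ℝ) ^ (2 * d) * (L : ℝ) ^ (2 * d + 2) := by
      rw [← pow_mul, ← pow_add]; congr 1; ring
    field_simp
    rw [this]
    ring
  have e2 : ((L : ℝ) ^ (2 * d + 2))⁻¹ = (L : ℝ)⁻¹ * ((L : ℝ) ^ (2 * d + 1))⁻¹ := by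
    rw [pow_succ (L : ℝ) (2 * d + 1), mul_inv]; ring
  rw [e1, e2]
  push_cast
  rw [mul_pow, mul_inv]
  have hx : (0 : ℝ) < ((L : ℝ) ^ (2 * d + 1))⁻¹ := by positivity
  have a1 : 3 * 17 ^ (2 * d) * (L : ℝ)⁻¹ ≤ (1 / 2) * (10 ^ (2 * d + 1))⁻¹ := by
    rw [← div_eq_mul_inv, div_le_iff₀ hLp]
    have h10 : (0 : ℝ) < 10 ^ (2 * d + 1) := by positivity
    rw [mul_assoc, inv_mul_eq_div, ← mul_div_assoc, le_div_iff₀ h10]
    linarith
  have a2 : (L : ℝ)⁻¹ ≤ (1 / 2) * (10 ^ (2 * d + 1))⁻¹ := by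
    have h10 : (0 : ℝ) < 10 ^ (2 * d + 1) := by positivity
    rw [← one_div, ← one_div, div_mul_div_comm, one_mul]
    exact one_div_le_one_div_of_le (by positivity) h2
  nlinarith

/-- the probabilistic step -/
lemma prob_GG {b : Bool} {ℓ r L0 : ℕ} (hℓ : ℓ ≤ L0) (h1 : 1 ≤ L0)
    (hL0 : 6 * 17 ^ (2 * d) * 10 ^ (2 * d + 1) ≤ L0) {E : ℝ}
    (h0 : ∀ a : V d, (PP d).real {ω | ¬ Dense ω b ℓ L0 a} ≤ ((L0 : ℝ) ^ (2 * d + 1))⁻¹)
    (hres : ∀ k, (PP d).real {ω | ¬ RR r ω E (10 ^ k * L0) (0 : V d)}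
      ≤ (((10 ^ k * L0 : ℕ) : ℝ) ^ (2 * d + 2))⁻¹) :
    ∀ (k : ℕ) (a : V d), (PP d).real {ω | ¬ GG b ℓ r L0 k ω E a}
      ≤ (((10 ^ k * L0 : ℕ) : ℝ) ^ (2 * d + 1))⁻¹ := by
  intro k
  induction k with
  | zero => intro a; simpa [GG] using h0 a
  | succ k ih =>
    intro a
    have e10 : 10 ^ (k + 1) * L0 = 10 * (10 ^ k * L0) := by ring
    have hLL0 : L0 ≤ 10 ^ k * L0 := Nat.le_mul_of_pos_left _ (by positivity)
    have hL1 : 1 ≤ 10 ^ k * L0 := h1.trans hLL0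
    rw [e10]
    refine le_trans ?_ (numeric_prob hL1 (hL0.trans hLL0))
    set B : ℕ → Set (V d → Bool) := fun j => (Sh b ℓ r L0 k E a j)ᶜ with hB
    have hsub : {ω : V d → Bool | ¬ GG b ℓ r L0 (k + 1) ω E a} ⊆
        ((B 0 ∩ B 1) ∪ (B 0 ∩ B 2) ∪ (B 1 ∩ B 2)) ∪ {ω | ¬ RR r ω E (10 ^ k * L0) a} := by
      intro ω hω
      by_contra hc
      simp only [Set.mem_union, Set.mem_inter_iff, not_or, not_and, hB, Set.mem_compl_iff,
        not_not, Set.mem_ofPred_eq] at hc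
      obtain ⟨⟨⟨c1, c2⟩, c3⟩, c4⟩ := hc
      apply hω
      refine ⟨c4, ?_⟩
      by_cases g0 : ω ∈ Sh b ℓ r L0 k E a 0
      · by_cases g1 : ω ∈ Sh b ℓ r L0 k E a 1
        · exact ⟨0, 1, by norm_num, by norm_num, g0, g1⟩
        · exact ⟨0, 2, by norm_num, by norm_num, g0, c3 g1⟩
      · exact ⟨1, 2, by norm_num, by norm_num, c1 g0, c2 g0⟩
    have hind : ∀ i j : ℕ, i < j → j < 3 → (PP d).real (B i ∩ B j) ≤
        ((17 * ((10 ^ k * L0 : ℕ) : ℝ)) ^ d * (((10 ^ k * L0 : ℕ) : ℝ) ^ (2 * d + 1))⁻¹) ^ 2 := by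
      intro i j hij hj
      have hdisj : Disjoint (Q a ((3 * i + 2) * (10 ^ k * L0) + 10 ^ k * L0) \
          Q a ((3 * i + 2) * (10 ^ k * L0) - (10 ^ k * L0 + 1)))
          (Q a ((3 * j + 2) * (10 ^ k * L0) + 10 ^ k * L0) \
          Q a ((3 * j + 2) * (10 ^ k * L0) - (10 ^ k * L0 + 1))) := by
        rw [Finset.disjoint_left]
        intro x hx hx'
        rw [Finset.mem_sdiff] at hx hx'
        apply hx'.2
        refine Q_mono ?_ hx.1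
        have : (3 * i + 2) * (10 ^ k * L0) + 3 * (10 ^ k * L0) ≤ (3 * j + 2) * (10 ^ k * L0) := by
          rw [← add_mul]; exact Nat.mul_le_mul_right _ (by omega)
        omega
      rw [(dep_Sh b hℓ h1 k E a i).compl.indep (dep_Sh b hℓ h1 k E a j).compl hdisj, sq]
      have p1 := prob_Sh b k E a h1 (by omega : i < 3) ih
      have p2 := prob_Sh b k E a h1 hj ih
      exact mul_le_mul p1 p2 measureReal_nonneg (by positivity)
    calc (PP d).real {ω : V d → Bool | ¬ GG b ℓ r L0 (k + 1) ω E a}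
        ≤ (PP d).real (((B 0 ∩ B 1) ∪ (B 0 ∩ B 2) ∪ (B 1 ∩ B 2))
            ∪ {ω | ¬ RR r ω E (10 ^ k * L0) a}) := measureReal_mono hsub (measure_ne_top _ _)
      _ ≤ (PP d).real ((B 0 ∩ B 1) ∪ (B 0 ∩ B 2) ∪ (B 1 ∩ B 2))
            + (PP d).real {ω | ¬ RR r ω E (10 ^ k * L0) a} := measureReal_union_le _ _
      _ ≤ ((PP d).real ((B 0 ∩ B 1) ∪ (B 0 ∩ B 2)) + (PP d).real (B 1 ∩ B 2))
            + (PP d).real {ω | ¬ RR r ω E (10 ^ k * L0) a} := by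
          gcongr; exact measureReal_union_le _ _
      _ ≤ (((PP d).real (B 0 ∩ B 1) + (PP d).real (B 0 ∩ B 2)) + (PP d).real (B 1 ∩ B 2))
            + (PP d).real {ω | ¬ RR r ω E (10 ^ k * L0) a} := by
          gcongr; exact measureReal_union_le _ _
      _ ≤ _ := by
          rw [real_not_RR]
          have q1 := hind 0 1 (by norm_num) (by norm_num)
          have q2 := hind 0 2 (by norm_num) (by norm_num)
          have q3 := hind 1 2 (by norm_num) (by norm_num)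
          have q4 := hres k
          linarith

end Pool.Agent.H12R2.And
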