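import Pool.Agent.H12R2.And6

set_option autoImplicit false

/-! Choice of the initial scale. -/

namespace Pool.Agent.H12R2.And

open Finset Complex MeasureTheory ProbabilityTheory Filter
open scoped ENNReal Topology

variable {d : ℕ}

/-- width of the edge zone at stage `m` -/
noncomputable def th (d m : ℕ) : ℝ :=
  (1 / 2) * ((1 / (2 * d + 2)) * ((2 * d : ℝ)⁻¹) ^ (d * ((d + 1) * m)))

/-- super-exponential sequences beat exponential ones -/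
lemma ev_pow_le (C A : ℝ) (j : ℕ) : ∀ᶠ m : ℕ in atTop, C * A ^ m * (m : ℝ) ^ j ≤ 2 ^ (m ^ 2) := by
  set A' : ℝ := max |A| 1 with hA'
  have hA1 : 1 ≤ A' := le_max_right _ _
  have hA0 : 0 < A' := by linarith
  have h1 : ∀ᶠ m : ℕ in atTop, |C| * (m : ℝ) ^ j ≤ 2 ^ m := by
    have h := tendsto_pow_const_div_const_pow_of_one_lt j (one_lt_two : (1 : ℝ) < 2)
    have h2 := h.const_mul |C|
    rw [mul_zero] at h2
    filter_upwards [h2.eventually (gt_mem_nhds one_pos)] with m hm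
    rw [← mul_div_assoc, div_lt_one (by positivity)] at hm
    exact hm.le
  have h2 : ∀ᶠ m : ℕ in atTop, 2 * A' ≤ (2 : ℝ) ^ m :=
    (tendsto_pow_atTop_atTop_of_one_lt (one_lt_two : (1 : ℝ) < 2)).eventually_ge_atTop _
  filter_upwards [h1, h2] with m hm1 hm2
  calc C * A ^ m * (m : ℝ) ^ j ≤ |C * A ^ m * (m : ℝ) ^ j| := le_abs_self _
    _ = |C| * (m : ℝ) ^ j * |A| ^ m := by
        rw [abs_mul, abs_mul, abs_pow, abs_of_nonneg (by positivity : (0 : ℝ) ≤ (m : ℝ) ^ j)]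
        ring
    _ ≤ 2 ^ m * A' ^ m := by
        apply mul_le_mul hm1 (pow_le_pow_left₀ (abs_nonneg _) (le_max_left _ _) _)
          (by positivity) (by positivity)
    _ = (2 * A') ^ m := by rw [mul_pow]
    _ ≤ (2 ^ m) ^ m := pow_le_pow_left₀ (by positivity) hm2 _
    _ = 2 ^ (m ^ 2) := by rw [← pow_mul, pow_two]

lemma th_pos (hd : 1 ≤ d) (m : ℕ) : 0 < th d m := by
  have : (0 : ℝ) < d := by exact_mod_cast hd
  unfold th; positivity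

lemma th_eq (hd : 1 ≤ d) (m : ℕ) :
    (th d m)⁻¹ = (4 * d + 4) * ((2 * d : ℝ) ^ (d * (d + 1))) ^ m := by
  have : (0 : ℝ) < d := by exact_mod_cast hd
  unfold th
  rw [← pow_mul, mul_assoc d (d + 1) m, inv_pow]
  field_simp
  ring

lemma th_antitone (hd : 1 ≤ d) : Antitone (th d) := by
  intro a b hab
  have hd' : (1 : ℝ) ≤ d := by exact_mod_cast hd
  unfold th
  apply mul_le_mul_of_nonneg_left _ (by norm_num)
  apply mul_le_mul_of_nonneg_left _ (by positivity)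
  apply pow_le_pow_of_le_one (by positivity) (inv_le_one_of_one_le₀ (by linarith))
  gcongr

lemma th_le_one (hd : 1 ≤ d) (m : ℕ) : th d m ≤ 1 := by
  have hd' : (1 : ℝ) ≤ d := by exact_mod_cast hd
  have h := th_eq hd m
  have h1 : 1 ≤ (th d m)⁻¹ := by
    rw [h]
    have : (1 : ℝ) ≤ ((2 * d : ℝ) ^ (d * (d + 1))) ^ m :=
      one_le_pow₀ (one_le_pow₀ (by linarith))
    nlinarith
  exact (one_le_inv₀ (th_pos hd m)).1 h1

/-- probability of the initial event -/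
lemma init_prob (hd : 2 ≤ d) (b : Bool) {m : ℕ} (hm : 1 ≤ m) (a : V d) :
    (PP d).real {ω | ¬ Dense ω b ((d + 1) * m) (2 ^ (m ^ 2)) a}
      ≤ (((2 ^ (m ^ 2) : ℕ) : ℝ) ^ (2 * d + 1))⁻¹ := by
  refine (not_dense_le b _ _ a).trans ?_
  set L : ℕ := 2 ^ (m ^ 2) with hL
  have hL1 : 1 ≤ L := Nat.one_le_two_pow
  have hL' : (1 : ℝ) ≤ L := by exact_mod_cast hL1
  rw [one_div, inv_pow, ← div_eq_mul_inv, div_le_iff₀ (by positivity), ← div_eq_inv_mul,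
    le_div_iff₀ (by positivity)]
  have h1 : (2 * (L : ℝ) + 1) ^ d ≤ (4 * L) ^ d := by gcongr; linarith
  have h2 : (4 * (L : ℝ)) ^ d * (L : ℝ) ^ (2 * d + 1) = 2 ^ (2 * d + (3 * d + 1) * m ^ 2) := by
    rw [hL]; push_cast
    rw [mul_pow, mul_assoc, ← pow_add, ← pow_mul, pow_add 2 (2 * d), pow_mul 2 2 d]
    norm_num
    ring
  have h3 : 2 * d + (3 * d + 1) * m ^ 2 ≤ (2 * ((d + 1) * m) + 1) ^ d := by
    calc 2 * d + (3 * d + 1) * m ^ 2 ≤ (2 * ((d + 1) * m) + 1) ^ 2 := by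
          nlinarith [Nat.zero_le (d * m), Nat.zero_le (d * d * (m * m)), Nat.zero_le (d * (m * m))]
      _ ≤ (2 * ((d + 1) * m) + 1) ^ d := Nat.pow_le_pow_right (by omega) hd
  calc (2 * (L : ℝ) + 1) ^ d * (L : ℝ) ^ (2 * d + 1) ≤ (4 * L) ^ d * (L : ℝ) ^ (2 * d + 1) := by
        gcongr
    _ = 2 ^ (2 * d + (3 * d + 1) * m ^ 2) := h2
    _ ≤ 2 ^ ((2 * ((d + 1) * m) + 1) ^ d) := pow_le_pow_right₀ (by norm_num) h3

/-- decay at the initial scale -/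
lemma init_decay (hd : 1 ≤ d) (M : ℕ) : ∀ᶠ m : ℕ in atTop,
    (1 - th d m) ^ ((2 ^ (m ^ 2) + 1) / ((d + 1) * m + 1)) ≤ (((2 ^ (m ^ 2) : ℕ) : ℝ) ^ M)⁻¹ := by
  have hd' : (1 : ℝ) ≤ d := by exact_mod_cast hd
  set A : ℝ := (2 * d : ℝ) ^ (d * (d + 1)) with hA
  have h1 := ev_pow_le ((4 * d + 4) * (M + 1) * (d + 2)) A 3
  filter_upwards [h1, eventually_ge_atTop 1] with m hm hm1
  have hm1' : (1 : ℝ) ≤ m := by exact_mod_cast hm1
  have ht0 := th_pos hd m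
  have ht1 := th_le_one hd m
  set q : ℕ := (2 ^ (m ^ 2) + 1) / ((d + 1) * m + 1) with hq
  have h4 : (2 ^ (m ^ 2) : ℝ) ≤ ((d + 2) * m) * (q + 1) := by
    have h2 : 2 ^ (m ^ 2) + 1 < ((d + 1) * m + 1) * (q + 1) := by
      rw [hq]; exact Nat.lt_mul_div_succ _ (by omega)
    have h3 : ((d + 1) * m + 1) * (q + 1) ≤ ((d + 2) * m) * (q + 1) := by
      apply Nat.mul_le_mul_right; nlinarith
    exact_mod_cast (by omega : 2 ^ (m ^ 2) ≤ ((d + 2) * m) * (q + 1))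
  have h5 : (th d m)⁻¹ * ((M + 1) * m ^ 2) ≤ q + 1 := by
    rw [th_eq hd m, ← hA]
    have h6 : ((d + 2) * m : ℝ) * ((4 * d + 4) * A ^ m * ((M + 1) * m ^ 2)) ≤
        ((d + 2) * m) * (q + 1) := by
      refine le_trans (le_of_eq ?_) (hm.trans h4)
      ring
    exact le_of_mul_le_mul_left h6 (by positivity)
  have h6 : ((M + 1) * m ^ 2 : ℝ) ≤ th d m * (q + 1) := by
    rwa [inv_mul_le_iff₀ ht0] at h5
  have h7 : (M * m ^ 2 : ℝ) ≤ th d m * q := by nlinarith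
  have h8 : (1 - th d m) ^ q ≤ Real.exp (-(th d m * q)) := by
    calc (1 - th d m) ^ q ≤ (Real.exp (-th d m)) ^ q := by
          apply pow_le_pow_left₀ (by linarith)
          have := Real.add_one_le_exp (-th d m)
          linarith
      _ = Real.exp (-(th d m * q)) := by rw [← Real.exp_nat_mul]; congr 1; ring
  refine h8.trans ?_
  have h9 : (((2 ^ (m ^ 2) : ℕ) : ℝ) ^ M)⁻¹ = Real.exp (-(Real.log 2 * (M * m ^ 2))) := by
    push_cast
    rw [← pow_mul, Real.exp_neg, mul_comm (m ^ 2) M]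
    congr 1
    rw [mul_comm (Real.log 2)]
    have : (M * m ^ 2 : ℝ) = ((M * m ^ 2 : ℕ) : ℝ) := by push_cast; ring
    rw [this, Real.exp_nat_mul, Real.exp_log (by norm_num)]
  rw [h9]
  apply Real.exp_le_exp.2
  have hl : Real.log 2 ≤ 1 := by
    have := Real.log_two_lt_d9; linarith
  have h10 : 0 ≤ (M * m ^ 2 : ℝ) := by positivity
  nlinarith

lemma ev_ge (C : ℕ) : ∀ᶠ m : ℕ in atTop, C ≤ 2 ^ (m ^ 2) := by
  filter_upwards [eventually_ge_atTop C, eventually_ge_atTop 1] with m hm hm1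
  calc C ≤ m := hm
    _ ≤ m ^ 2 := Nat.le_self_pow (by norm_num) m
    _ ≤ 2 ^ (m ^ 2) := Nat.lt_two_pow_self.le

lemma th_small (hd : 1 ≤ d) (n : ℕ) :
    ∀ᶠ m : ℕ in atTop, (((2 ^ (m ^ 2) : ℕ) : ℝ))⁻¹ ≤ (th d (m + 1)) ^ n := by
  have hd' : (1 : ℝ) ≤ d := by exact_mod_cast hd
  set A : ℝ := (2 * d : ℝ) ^ (d * (d + 1)) with hA
  have h1 := ev_pow_le (((4 * d + 4) * A) ^ n) (A ^ n) 0
  filter_upwards [h1] with m hm
  rw [pow_zero, mul_one] at hm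
  apply inv_le_of_inv_le₀ (pow_pos (th_pos hd _) _)
  rw [← inv_pow, th_eq hd, ← hA]
  push_cast
  refine le_trans (le_of_eq ?_) hm
  rw [pow_succ, mul_pow, mul_pow, mul_pow]
  ring

/-- the stages at which everything works -/
structure Stage (d m : ℕ) : Prop where
  one_le : 1 ≤ m
  hℓ : (d + 1) * m ≤ 2 ^ (m ^ 2)
  big1 : (2 * d * 17 ^ d) ^ 2 * 10 ^ (4 * (3 * d + 4) + 2 * d + 2) ≤ 2 ^ (m ^ 2)
  big2 : 6 * 17 ^ (2 * d) * 10 ^ (2 * d + 1) ≤ 2 ^ (m ^ 2)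
  big3 : 12 * 17 ^ d ≤ 2 ^ (m ^ 2)
  big4 : 4 ^ d * (4 * d ^ 2) ≤ 2 ^ (m ^ 2)
  decay : (1 - th d m) ^ ((2 ^ (m ^ 2) + 1) / ((d + 1) * m + 1))
    ≤ (((2 ^ (m ^ 2) : ℕ) : ℝ) ^ (4 * (3 * d + 4) + 2 * d + 2))⁻¹

lemma ev_stage (hd : 1 ≤ d) : ∀ᶠ m : ℕ in atTop, Stage d m := by
  have h1 : ∀ᶠ m : ℕ in atTop, (d + 1) * m ≤ 2 ^ (m ^ 2) := by
    filter_upwards [ev_pow_le (d + 1) 1 1] with m hm
    rw [one_pow, mul_one, pow_one] at hm
    exact_mod_cast hm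
  filter_upwards [eventually_ge_atTop 1, h1,
    ev_ge ((2 * d * 17 ^ d) ^ 2 * 10 ^ (4 * (3 * d + 4) + 2 * d + 2)),
    ev_ge (6 * 17 ^ (2 * d) * 10 ^ (2 * d + 1)), ev_ge (12 * 17 ^ d), ev_ge (4 ^ d * (4 * d ^ 2)),
    init_decay hd (4 * (3 * d + 4) + 2 * d + 2)] with m a1 a2 a3 a4 a5 a6 a7
  exact ⟨a1, a2, a3, a4, a5, a6, a7⟩

lemma th_tendsto (hd : 1 ≤ d) : Tendsto (th d) atTop (𝓝 0) := by
  have hd' : (1 : ℝ) ≤ d := by exact_mod_cast hd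
  have h1 : Tendsto (fun m : ℕ => ((2 ^ m : ℝ))⁻¹) atTop (𝓝 0) := by
    have := tendsto_pow_atTop_nhds_zero_of_lt_one (r := (2 : ℝ)⁻¹) (by norm_num) (by norm_num)
    simpa [inv_pow] using this
  refine squeeze_zero (fun m => (th_pos hd m).le) (fun m => ?_) h1
  apply le_inv_of_le_inv₀ (by positivity)
  rw [th_eq hd]
  have h2 : (2 : ℝ) ≤ (2 * d : ℝ) ^ (d * (d + 1)) := by
    have : (2 : ℝ) ≤ 2 * d := by linarith
    refine this.trans (le_self_pow₀ (by linarith) ?_)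
    have : 1 ≤ d * (d + 1) := Nat.one_le_iff_ne_zero.mpr (by positivity)
    omega
  have h3 : (2 : ℝ) ^ m ≤ ((2 * d : ℝ) ^ (d * (d + 1))) ^ m := pow_le_pow_left₀ (by norm_num) h2 m
  have h4 : (0 : ℝ) < 2 ^ m := by positivity
  nlinarith

end Pool.Agent.H12R2.And
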