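import Pool.Agent.H12R2.And7

set_option autoImplicit false

/-! Resolvents of bounded self-adjoint operators. -/

namespace Pool.Agent.H12R2.And

open Complex MeasureTheory Filter
open scoped ENNReal Topology InnerProductSpace

section abstractRes

variable {F : Type*} [NormedAddCommGroup F] [InnerProductSpace ℂ F] [CompleteSpace F]

/-- the resolvent -/
noncomputable def Rz (T : F →L[ℂ] F) (z : ℂ) : F →L[ℂ] F :=
  Ring.inverse (T - z • (1 : F →L[ℂ] F))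

lemma isUnit_sub {T : F →L[ℂ] F} (hT : IsSelfAdjoint T) {z : ℂ} (hz : z.im ≠ 0) :
    IsUnit (T - z • (1 : F →L[ℂ] F)) := by
  have h : z ∉ spectrum ℂ T := by
    intro h
    have := hT.mem_spectrum_eq_re h
    apply hz
    rw [this]; simp
  rw [spectrum.mem_iff, not_not] at h
  have h2 := h.neg
  rw [neg_sub, Algebra.algebraMap_eq_smul_one] at h2
  exact h2

lemma sub_Rz {T : F →L[ℂ] F} (hT : IsSelfAdjoint T) {z : ℂ} (hz : z.im ≠ 0) (ψ : F) :
    T (Rz T z ψ) - z • Rz T z ψ = ψ := by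
  have h := Ring.mul_inverse_cancel _ (isUnit_sub hT hz)
  have h2 := congrArg (fun A : F →L[ℂ] F => A ψ) h
  simpa [Rz] using h2

lemma im_form {T : F →L[ℂ] F} (hT : IsSelfAdjoint T) (u : F) : (inner ℂ (T u) u).im = 0 := by
  have h := hT.isSymmetric u u
  have h2 : (starRingEnd ℂ) (inner ℂ (T u) u) = inner ℂ (T u) u := by
    rw [inner_conj_symm]; exact h.symm
  exact Complex.conj_eq_iff_im.mp h2

lemma im_inner {T : F →L[ℂ] F} (hT : IsSelfAdjoint T) {z : ℂ} (hz : z.im ≠ 0) (ψ : F) :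
    (inner ℂ ψ (Rz T z ψ)).im = z.im * ‖Rz T z ψ‖ ^ 2 := by
  set u := Rz T z ψ with hu
  have h : ψ = T u - z • u := (sub_Rz hT hz ψ).symm
  have h2 : inner ℂ ψ u = inner ℂ (T u) u - (starRingEnd ℂ) z * ((‖u‖ : ℂ) ^ 2) := by
    conv_lhs => rw [h]
    rw [inner_sub_left, inner_smul_left, inner_self_eq_norm_sq_to_K]
    rfl
  rw [h2, Complex.sub_im, im_form hT u]
  have : ((‖u‖ : ℂ) ^ 2) = ((‖u‖ ^ 2 : ℝ) : ℂ) := by push_cast; rfl
  rw [this]
  simp only [Complex.mul_im, Complex.ofReal_re, Complex.ofReal_im, Complex.conj_re, Complex.conj_im]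
  ring

lemma norm_Rz_le {T : F →L[ℂ] F} (hT : IsSelfAdjoint T) {z : ℂ} (hz : 0 < z.im) (ψ : F) :
    ‖Rz T z ψ‖ ≤ ‖ψ‖ / z.im := by
  have h := im_inner hT hz.ne' ψ
  set u := Rz T z ψ with hu
  have h2 : z.im * ‖u‖ ^ 2 ≤ ‖ψ‖ * ‖u‖ := by
    rw [← h]
    exact (le_abs_self _).trans ((Complex.abs_im_le_norm _).trans (norm_inner_le_norm _ _))
  rw [le_div_iff₀ hz]
  rcases eq_or_lt_of_le (norm_nonneg u) with h0 | h0
  · rw [← h0, zero_mul]; exact norm_nonneg _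
  · have h3 : ‖u‖ * z.im * ‖u‖ ≤ ‖ψ‖ * ‖u‖ := by
      calc ‖u‖ * z.im * ‖u‖ = z.im * ‖u‖ ^ 2 := by ring
        _ ≤ _ := h2
    exact le_of_mul_le_mul_right h3 h0

lemma norm_Rz_le' {T : F →L[ℂ] F} (hT : IsSelfAdjoint T) {z : ℂ} (hz : z.im ≠ 0)
    (hz2 : 2 * ‖T‖ ≤ ‖z‖) (ψ : F) : ‖Rz T z ψ‖ ≤ 2 * ‖ψ‖ / ‖z‖ := by
  have h := sub_Rz hT hz ψ
  set u := Rz T z ψ with hu
  have hz0 : 0 < ‖z‖ := by
    rw [norm_pos_iff]; rintro rfl; simp at hz
  have h1 : ‖z‖ * ‖u‖ ≤ ‖T‖ * ‖u‖ + ‖ψ‖ := by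
    rw [← norm_smul]
    have : z • u = T u - ψ := by rw [← h]; abel
    rw [this]
    exact (norm_sub_le _ _).trans (add_le_add (T.le_opNorm u) le_rfl)
  rw [le_div_iff₀ hz0]
  nlinarith [norm_nonneg u]

lemma diff_Rz {T : F →L[ℂ] F} (hT : IsSelfAdjoint T) {z : ℂ} (hz : z.im ≠ 0) :
    DifferentiableAt ℂ (Rz T) z := by
  have h := (isUnit_sub hT hz)
  have h1 : DifferentiableAt ℂ (Ring.inverse : (F →L[ℂ] F) → (F →L[ℂ] F))
      (T - z • (1 : F →L[ℂ] F)) := differentiableAt_inverse h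
  have h2 : DifferentiableAt ℂ (fun z : ℂ => T - z • (1 : F →L[ℂ] F)) z :=
    (differentiableAt_const T).sub (differentiableAt_id.smul_const _)
  exact h1.comp z h2

lemma diff_inner {T : F →L[ℂ] F} (hT : IsSelfAdjoint T) (ψ : F) {z : ℂ} (hz : z.im ≠ 0) :
    DifferentiableAt ℂ (fun z => inner ℂ ψ (Rz T z ψ)) z := by
  have h1 := diff_Rz hT hz
  have h2 : DifferentiableAt ℂ (fun z => Rz T z ψ) z :=
    h1.clm_apply (differentiableAt_const ψ)
  exact ((innerSL ℂ ψ).differentiableAt).comp z h2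

/-- the energy-averaged bound for the resolvent -/
lemma int_bound {T : F →L[ℂ] F} (hT : IsSelfAdjoint T) (ψ : F) {ε N : ℝ} (hε : 0 < ε)
    (hεN : ε ≤ N) (hN : 2 * ‖T‖ ≤ N) :
    ∫ x in (-N)..N, (inner ℂ ψ (Rz T ((x : ℂ) + ε * I) ψ)).im ≤ 8 * ‖ψ‖ ^ 2 := by
  have hN0 : 0 < N := hε.trans_le hεN
  set f : ℂ → ℂ := fun z => inner ℂ ψ (Rz T z ψ) with hf
  have hpos : ∀ z : ℂ, z.im ∈ Set.uIcc ε N → 0 < z.im := by
    intro z hz
    rw [Set.uIcc_of_le hεN] at hz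
    exact hε.trans_le hz.1
  have hd : DifferentiableOn ℂ f
      (Set.uIcc ((⟨-N, ε⟩ : ℂ)).re ((⟨N, N⟩ : ℂ)).re ×ℂ
        Set.uIcc ((⟨-N, ε⟩ : ℂ)).im ((⟨N, N⟩ : ℂ)).im) := by
    intro z hz
    rw [Complex.mem_reProdIm] at hz
    exact (diff_inner hT ψ (hpos z hz.2).ne').differentiableWithinAt
  have hC := Complex.integral_boundary_rect_eq_zero_of_differentiableOn f ⟨-N, ε⟩ ⟨N, N⟩ hd
  simp only at hC
  -- bounds
  have hb : ∀ z : ℂ, 0 < z.im → N ≤ ‖z‖ → ‖f z‖ ≤ 2 * ‖ψ‖ ^ 2 / N := by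
    intro z hz hzN
    calc ‖f z‖ ≤ ‖ψ‖ * ‖Rz T z ψ‖ := norm_inner_le_norm _ _
      _ ≤ ‖ψ‖ * (2 * ‖ψ‖ / ‖z‖) := by
          apply mul_le_mul_of_nonneg_left _ (norm_nonneg _)
          exact norm_Rz_le' hT hz.ne' (hN.trans hzN) ψ
      _ ≤ ‖ψ‖ * (2 * ‖ψ‖ / N) := by gcongr
      _ = _ := by ring
  have hb1 : ‖∫ x in (-N)..N, f (x + (N : ℂ) * I)‖ ≤ 2 * ‖ψ‖ ^ 2 / N * |N - (-N)| := by
    apply intervalIntegral.norm_integral_le_of_norm_le_const
    intro x _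
    apply hb
    · simp [hN0]
    · refine le_trans ?_ (Complex.abs_im_le_norm _)
      simp [abs_of_pos hN0]
  have hb2 : ‖∫ y in ε..N, f ((N : ℂ) + y * I)‖ ≤ 2 * ‖ψ‖ ^ 2 / N * |N - ε| := by
    apply intervalIntegral.norm_integral_le_of_norm_le_const
    intro y hy
    rw [Set.uIoc_of_le hεN] at hy
    apply hb
    · simp; exact hε.trans hy.1
    · refine le_trans ?_ (Complex.abs_re_le_norm _)
      simp [abs_of_pos hN0]
  have hb3 : ‖∫ y in ε..N, f (((-N : ℝ) : ℂ) + y * I)‖ ≤ 2 * ‖ψ‖ ^ 2 / N * |N - ε| := by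
    apply intervalIntegral.norm_integral_le_of_norm_le_const
    intro y hy
    rw [Set.uIoc_of_le hεN] at hy
    apply hb
    · simp; exact hε.trans hy.1
    · refine le_trans ?_ (Complex.abs_re_le_norm _)
      simp [abs_of_pos hN0]
  have hre : ∫ x in (-N)..N, (inner ℂ ψ (Rz T ((x : ℂ) + ε * I) ψ)).im =
      (∫ x in (-N)..N, f ((x : ℂ) + ε * I)).im := by
    have hcont : ContinuousOn (fun x : ℝ => f ((x : ℂ) + ε * I)) (Set.uIcc (-N) N) := by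
      intro x _
      have h1 : ContinuousAt f ((x : ℂ) + ε * I) :=
        (diff_inner hT ψ (by simp [hε.ne'] : ((x : ℂ) + ε * I).im ≠ 0)).continuousAt
      have h2 : ContinuousAt (fun x : ℝ => (x : ℂ) + ε * I) x := by fun_prop
      exact (ContinuousAt.comp (f := fun x : ℝ => (x : ℂ) + ε * I) h1 h2).continuousWithinAt
    have hint : IntervalIntegrable (fun x : ℝ => f ((x : ℂ) + ε * I)) volume (-N) N :=
      hcont.intervalIntegrable
    have h := Complex.imCLM.intervalIntegral_comp_comm hint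
    simpa [hf] using h
  rw [hre]
  refine (le_abs_self _).trans ((Complex.abs_im_le_norm _).trans ?_)
  set A := ∫ x in (-N)..N, f ((x : ℂ) + ε * I) with hA
  set B1 := ∫ x in (-N)..N, f (x + (N : ℂ) * I) with hB1
  set B2 := ∫ y in ε..N, f ((N : ℂ) + y * I) with hB2
  set B3 := ∫ y in ε..N, f (((-N : ℝ) : ℂ) + y * I) with hB3
  have hA' : A = B1 - I * B2 + I * B3 := by
    have : A - B1 + I • B2 - I • B3 = 0 := hC
    rw [smul_eq_mul, smul_eq_mul] at this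
    linear_combination this
  have hI : ∀ w : ℂ, ‖I * w‖ = ‖w‖ := fun w => by simp
  have hn : ‖A‖ ≤ ‖B1‖ + ‖B2‖ + ‖B3‖ := by
    rw [hA']
    refine (norm_add_le _ _).trans ?_
    rw [hI]
    refine add_le_add ((norm_sub_le _ _).trans ?_) le_rfl
    rw [hI]
  have e1 : 2 * ‖ψ‖ ^ 2 / N * |N - (-N)| = 4 * ‖ψ‖ ^ 2 := by
    rw [abs_of_pos (by linarith)]; field_simp; ring
  have e2 : 2 * ‖ψ‖ ^ 2 / N * |N - ε| ≤ 2 * ‖ψ‖ ^ 2 := by
    rw [abs_of_nonneg (by linarith), div_mul_eq_mul_div, div_le_iff₀ hN0]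
    apply mul_le_mul_of_nonneg_left _ (by positivity)
    linarith
  linarith

end abstractRes

end Pool.Agent.H12R2.And
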