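import Pool.Agent.H12R2.And8

set_option autoImplicit false

/-! The operator on `ℓ²` and the decoupling estimate. -/

namespace Pool.Agent.H12R2.And

open Complex MeasureTheory Filter
open scoped ENNReal Topology InnerProductSpace

variable {d : ℕ}

/-- `H` acts as `-(discrete Laplacian) + ω` -/
def IsH (ω : V d → Bool) (H : lp (fun _ : V d => ℂ) 2 →L[ℂ] lp (fun _ : V d => ℂ) 2) : Prop :=
  ∀ (u : lp (fun _ : V d => ℂ) 2) (j : V d), (H u) j = hop ω u j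

lemma hop_single (ω : V d → Bool) (i j : V d) :
    hop ω (Pi.single j (1 : ℂ) : V d → ℂ) i = (ker ω i j : ℂ) := by
  rw [hop_eq_ker (D := {j}) (v := (Pi.single j (1 : ℂ) : V d → ℂ))]
  · simp
  · intro x hx
    rw [Finset.mem_singleton] at hx
    exact Pi.single_eq_of_ne hx _

lemma IsH.isSelfAdjoint {ω : V d → Bool}
    {H : lp (fun _ : V d => ℂ) 2 →L[ℂ] lp (fun _ : V d => ℂ) 2} (hH : IsH ω H) :
    IsSelfAdjoint H := by
  rw [ContinuousLinearMap.isSelfAdjoint_iff']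
  apply lp.ext_continuousLinearMap (by norm_num)
  intro i
  ext
  rename_i j
  simp only [ContinuousLinearMap.comp_apply, lp.singleContinuousLinearMap_apply]
  have h1 : ∀ w : lp (fun _ : V d => ℂ) 2, w j = inner ℂ (lp.single 2 j (1 : ℂ)) w := by
    intro w
    rw [lp.inner_single_left]; simp
  rw [h1, ContinuousLinearMap.adjoint_inner_right, lp.inner_single_right, hH, hH]
  have e1 : hop ω (⇑(lp.single 2 j (1 : ℂ) : lp (fun _ : V d => ℂ) 2)) i = (ker ω i j : ℂ) := by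
    rw [lp.coeFn_single]; exact hop_single ω i j
  have e2 : hop ω (⇑(lp.single 2 i (1 : ℂ) : lp (fun _ : V d => ℂ) 2)) j = (ker ω j i : ℂ) := by
    rw [lp.coeFn_single]; exact hop_single ω j i
  rw [e1, e2, ker_symm ω j i]
  simp

/-- the decoupling estimate -/
lemma decouple {ω : V d → Bool} {H : lp (fun _ : V d => ℂ) 2 →L[ℂ] lp (fun _ : V d => ℂ) 2}
    (hH : IsH ω H) {E : ℝ} {r M L R0 : ℕ} (hr : 1 ≤ r) (hM : M = 4 * r + 2 * d + 2) (hL : 1 ≤ L)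
    (hL4 : 4 ^ d * (4 * d ^ 2) ≤ L) (hR0 : R0 < L)
    (hNR : NR ω E (Q (0 : V d) (2 * L - 1)) ((L : ℝ) ^ r)⁻¹)
    (hG : ∀ w : V d, w ∈ Q (0 : V d) (2 * L) → w ∉ Q (0 : V d) (2 * L - 1) →
      Good ω E L (((L : ℝ) ^ M)⁻¹) w)
    {φ : lp (fun _ : V d => ℂ) 2} (hφ : ∀ x ∉ Q (0 : V d) R0, φ x = 0) :
    (inner ℂ φ (Rz H ((E : ℂ) + (((L : ℝ) ^ (3 * r))⁻¹ : ℝ) * I) φ)).im
      ≤ 7 * (L : ℝ)⁻¹ * ‖φ‖ ^ 2 := by
  classical
  have hL' : (1 : ℝ) ≤ L := by exact_mod_cast hL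
  have hLp : (0 : ℝ) < L := by linarith
  have hsa := hH.isSelfAdjoint
  set ε : ℝ := ((L : ℝ) ^ (3 * r))⁻¹ with hε
  have hε0 : 0 < ε := by positivity
  set z : ℂ := (E : ℂ) + (ε : ℂ) * I with hz
  have hzim : z.im = ε := by simp [hz]
  have hzim0 : z.im ≠ 0 := by rw [hzim]; exact hε0.ne'
  set u := Rz H z φ with hu
  have hsol : ∀ x, hop ω u x = z * u x + φ x := by
    intro x
    have h := sub_Rz hsa hzim0 φ
    have h2 : (H u) x - z * u x = φ x := by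
      conv_rhs => rw [← h]
      rfl
    rw [← hH]; linear_combination h2
  have hun : ‖u‖ ≤ (L : ℝ) ^ (3 * r) * ‖φ‖ := by
    have h := norm_Rz_le hsa (z := z) (by rw [hzim]; exact hε0) φ
    rw [hzim, hε, div_inv_eq_mul, mul_comm] at h
    exact h
  set T : ℝ := ((L : ℝ) ^ M)⁻¹ * ‖u‖ with hT
  have hT0 : 0 ≤ T := by positivity
  have hshell : ∀ w : V d, w ∈ Q (0 : V d) (2 * L) → w ∉ Q (0 : V d) (2 * L - 1) → ‖u w‖ ≤ T := by
    intro w hw hw'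
    refine hG w hw hw' ε u ‖u‖ ?_ ?_
    · intro x hx
      rw [hsol x, hφ x, add_zero]
      intro hc
      apply hw'
      exact Q_mono (by omega) (Q_trans hc (Q_symm.1 hx))
    · intro x _
      exact lp.norm_apply_le_norm (by norm_num) u x
  set D := Q (0 : V d) (2 * L - 1) with hD
  set v : V d → ℂ := fun x => if x ∈ D then u x else 0 with hv
  have hv0 : ∀ x ∉ D, v x = 0 := fun x hx => by simp [hv, hx]
  have hv1 : ∀ x ∈ D, v x = u x := fun x hx => by simp [hv, hx]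
  set e : V d → ℂ := fun x => hop ω v x - hop ω u x with he
  have he1 : ∀ x ∈ D, ‖e x‖ ≤ 2 * d * T := by
    intro x hx
    refine hop_sub_of_eq_on (hv1 x hx) ?_
    intro y hy
    by_cases hyD : y ∈ D
    · rw [hv1 y hyD, sub_self, norm_zero]; exact hT0
    · rw [hv0 y hyD, sub_zero]
      exact hshell y (Q_mono (by omega) (Q_trans hx hy)) hyD
  have he2 : ∀ x ∈ D, hop ω v x - z * v x = φ x + e x := by
    intro x hx
    simp only [he]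
    rw [hsol x, hv1 x hx]; ring
  set A2 : ℝ := ∑ x ∈ D, ‖v x‖ ^ 2 with hA2
  set W : ℝ := D.card * (2 * d * T) ^ 2 with hW
  have hWe : ∑ x ∈ D, ‖e x‖ ^ 2 ≤ W := by
    calc ∑ x ∈ D, ‖e x‖ ^ 2 ≤ ∑ x ∈ D, (2 * d * T) ^ 2 := by
          apply Finset.sum_le_sum
          intro x hx
          exact pow_le_pow_left₀ (norm_nonneg _) (he1 x hx) 2
      _ = W := by rw [Finset.sum_const, nsmul_eq_mul]
  have hφ2 : ∑ x ∈ D, ‖φ x‖ ^ 2 ≤ ‖φ‖ ^ 2 := by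
    have h := lp.sum_rpow_le_norm_rpow (p := 2) (by norm_num) φ D
    simpa using h
  have hNR' := NR_complex hNR ε hv0
  have hA2W : (((L : ℝ) ^ r)⁻¹) ^ 2 * A2 ≤ 2 * ‖φ‖ ^ 2 + 2 * W := by
    refine hNR'.trans ?_
    calc ∑ x ∈ D, ‖hop ω v x - ((E : ℂ) + ε * I) * v x‖ ^ 2
        ≤ ∑ x ∈ D, (2 * ‖φ x‖ ^ 2 + 2 * ‖e x‖ ^ 2) := by
          apply Finset.sum_le_sum
          intro x hx
          rw [he2 x hx]
          have h1 := norm_add_le (φ x) (e x)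
          have h2 : 0 ≤ ‖φ x + e x‖ := norm_nonneg _
          nlinarith [sq_nonneg (‖φ x‖ - ‖e x‖)]
      _ = 2 * ∑ x ∈ D, ‖φ x‖ ^ 2 + 2 * ∑ x ∈ D, ‖e x‖ ^ 2 := by
          rw [Finset.sum_add_distrib, Finset.mul_sum, Finset.mul_sum]
      _ ≤ _ := by linarith
  -- bound for W
  have hWb : W * (L : ℝ) ^ (2 * r + 2) ≤ ‖φ‖ ^ 2 := by
    have hc : (D.card : ℝ) ≤ (4 * L) ^ d := by
      rw [hD, card_Q]
      have : (2 * (2 * L - 1) + 1) ^ d ≤ (4 * L) ^ d := Nat.pow_le_pow_left (by omega) d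
      exact_mod_cast this
    have h4 : ((4 : ℝ) ^ d * (4 * d ^ 2)) ≤ L := by exact_mod_cast hL4
    have hT2 : T * (L : ℝ) ^ M ≤ (L : ℝ) ^ (3 * r) * ‖φ‖ := by
      rw [hT]
      calc ((L : ℝ) ^ M)⁻¹ * ‖u‖ * (L : ℝ) ^ M = ‖u‖ := by field_simp
        _ ≤ _ := hun
    have hT3 : T ^ 2 * (L : ℝ) ^ (2 * M) ≤ (L : ℝ) ^ (6 * r) * ‖φ‖ ^ 2 := by
      have h := pow_le_pow_left₀ (by positivity) hT2 2
      calc T ^ 2 * (L : ℝ) ^ (2 * M) = (T * (L : ℝ) ^ M) ^ 2 := by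
            rw [mul_comm 2 M, pow_mul]; ring
        _ ≤ _ := h
        _ = _ := by rw [mul_pow, ← pow_mul]; congr 2; ring
    have hexp : (L : ℝ) ^ (2 * M) = (L : ℝ) ^ (6 * r) * ((L : ℝ) ^ (2 * r + 2) * (L : ℝ) ^ (d + 1)
        * (L : ℝ) ^ (3 * d + 1)) := by
      rw [← pow_add, ← pow_add, ← pow_add, hM]; congr 1; ring
    have hT4 : T ^ 2 * ((L : ℝ) ^ (2 * r + 2) * (L : ℝ) ^ (d + 1) * (L : ℝ) ^ (3 * d + 1))
        ≤ ‖φ‖ ^ 2 := by
      rw [hexp] at hT3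
      have h6 : 0 < (L : ℝ) ^ (6 * r) := by positivity
      refine le_of_mul_le_mul_left ?_ h6
      calc _ = T ^ 2 * ((L : ℝ) ^ (6 * r) * ((L : ℝ) ^ (2 * r + 2) * (L : ℝ) ^ (d + 1)
        * (L : ℝ) ^ (3 * d + 1))) := by ring
        _ ≤ _ := hT3
    have hone : (1 : ℝ) ≤ (L : ℝ) ^ (3 * d + 1) := one_le_pow₀ hL'
    calc W * (L : ℝ) ^ (2 * r + 2) ≤ (4 * L) ^ d * (2 * d * T) ^ 2 * (L : ℝ) ^ (2 * r + 2) := by
          rw [hW]; gcongr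
      _ = (4 ^ d * (4 * d ^ 2)) * (T ^ 2 * ((L : ℝ) ^ (2 * r + 2) * (L : ℝ) ^ d)) := by
          rw [mul_pow 4 (L : ℝ)]; ring
      _ ≤ L * (T ^ 2 * ((L : ℝ) ^ (2 * r + 2) * (L : ℝ) ^ d)) := by gcongr
      _ = T ^ 2 * ((L : ℝ) ^ (2 * r + 2) * (L : ℝ) ^ (d + 1)) * 1 := by ring
      _ ≤ T ^ 2 * ((L : ℝ) ^ (2 * r + 2) * (L : ℝ) ^ (d + 1)) * (L : ℝ) ^ (3 * d + 1) := by gcongr
      _ = _ := by ring
      _ ≤ ‖φ‖ ^ 2 := hT4
  have hW0 : 0 ≤ W := by positivity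
  have hW1 : W ≤ ‖φ‖ ^ 2 := by
    refine le_trans ?_ hWb
    exact le_mul_of_one_le_right hW0 (one_le_pow₀ hL')
  have hA2b : A2 ≤ 4 * (L : ℝ) ^ (2 * r) * ‖φ‖ ^ 2 := by
    have h1 : (((L : ℝ) ^ r)⁻¹) ^ 2 * A2 ≤ 4 * ‖φ‖ ^ 2 := by linarith
    rw [inv_pow, inv_mul_le_iff₀ (by positivity), ← pow_mul, mul_comm r 2] at h1
    linarith
  have hA20 : 0 ≤ A2 := by positivity
  -- the imaginary part
  have him : (inner ℂ φ u).im = ε * A2 + (∑ x ∈ D, (starRingEnd ℂ) (v x) * e x).im := by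
    have h1 : inner ℂ φ u = ∑ x ∈ D, (starRingEnd ℂ) (φ x) * v x := by
      rw [lp.inner_eq_tsum, tsum_eq_sum (s := D)]
      · apply Finset.sum_congr rfl
        intro x hx
        rw [hv1 x hx]
        simp [mul_comm]
      · intro x hx
        rw [hφ x (fun hc => hx (Q_mono (by omega) hc))]
        simp
    have h2 : (∑ x ∈ D, (starRingEnd ℂ) (φ x) * v x).im
        = - (∑ x ∈ D, (starRingEnd ℂ) (v x) * φ x).im := by
      rw [← Complex.conj_im, map_sum]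
      congr 1
      apply Finset.sum_congr rfl
      intro x _
      rw [map_mul, Complex.conj_conj, mul_comm]
    have h3 : ∑ x ∈ D, (starRingEnd ℂ) (v x) * φ x = ∑ x ∈ D, (starRingEnd ℂ) (v x) * hop ω v x
        - z * (A2 : ℂ) - ∑ x ∈ D, (starRingEnd ℂ) (v x) * e x := by
      rw [hA2]
      push_cast
      rw [Finset.mul_sum, ← Finset.sum_sub_distrib, ← Finset.sum_sub_distrib]
      apply Finset.sum_congr rfl
      intro x hx
      have h4 := he2 x hx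
      have h5 : (starRingEnd ℂ) (v x) * v x = (‖v x‖ : ℂ) ^ 2 := Complex.conj_mul' _
      have h6 : φ x = hop ω v x - z * v x - e x := by rw [h4]; ring
      rw [h6, ← h5]; ring
    rw [h1, h2, h3, Complex.sub_im, Complex.sub_im, im_form_zero hv0]
    have : (z * (A2 : ℂ)).im = ε * A2 := by
      rw [Complex.mul_im]; simp [hzim]
    rw [this]; ring
  set s : ℝ := ((L : ℝ) ^ (2 * r + 1))⁻¹ with hs
  have hs0 : 0 < s := by positivity
  have hcross : (∑ x ∈ D, (starRingEnd ℂ) (v x) * e x).im ≤ s / 2 * A2 + (2 * s)⁻¹ * W := by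
    calc (∑ x ∈ D, (starRingEnd ℂ) (v x) * e x).im
        ≤ ‖∑ x ∈ D, (starRingEnd ℂ) (v x) * e x‖ := (le_abs_self _).trans (Complex.abs_im_le_norm _)
      _ ≤ ∑ x ∈ D, ‖(starRingEnd ℂ) (v x) * e x‖ := norm_sum_le _ _
      _ ≤ ∑ x ∈ D, (s / 2 * ‖v x‖ ^ 2 + (2 * s)⁻¹ * ‖e x‖ ^ 2) := by
          apply Finset.sum_le_sum
          intro x _
          rw [norm_mul, Complex.norm_conj]
          have h1 : s / 2 * ‖v x‖ ^ 2 + (2 * s)⁻¹ * ‖e x‖ ^ 2 - ‖v x‖ * ‖e x‖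
              = (2 * s)⁻¹ * (s * ‖v x‖ - ‖e x‖) ^ 2 := by
            field_simp; ring
          have h2 : 0 ≤ (2 * s)⁻¹ * (s * ‖v x‖ - ‖e x‖) ^ 2 := by positivity
          linarith
      _ = s / 2 * A2 + (2 * s)⁻¹ * ∑ x ∈ D, ‖e x‖ ^ 2 := by
          rw [Finset.sum_add_distrib, Finset.mul_sum, Finset.mul_sum]
      _ ≤ _ := by gcongr
  rw [him]
  have f1 : ε * A2 ≤ 4 * (L : ℝ)⁻¹ * ‖φ‖ ^ 2 := by
    calc ε * A2 ≤ ε * (4 * (L : ℝ) ^ (2 * r) * ‖φ‖ ^ 2) := by gcongr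
      _ = 4 * ((L : ℝ) ^ r)⁻¹ * ‖φ‖ ^ 2 := by
          rw [hε, show 3 * r = 2 * r + r by ring, pow_add]
          field_simp
      _ ≤ 4 * (L : ℝ)⁻¹ * ‖φ‖ ^ 2 := by
          gcongr
          exact le_self_pow₀ hL' (by omega)
  have f2 : s / 2 * A2 ≤ 2 * (L : ℝ)⁻¹ * ‖φ‖ ^ 2 := by
    calc s / 2 * A2 ≤ s / 2 * (4 * (L : ℝ) ^ (2 * r) * ‖φ‖ ^ 2) := by gcongr
      _ = _ := by
          rw [hs, pow_succ]
          field_simp
          ring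
  have f3 : (2 * s)⁻¹ * W ≤ (L : ℝ)⁻¹ * ‖φ‖ ^ 2 := by
    have h1 : (2 * s)⁻¹ * W = (L : ℝ)⁻¹ * (W * (L : ℝ) ^ (2 * r + 2)) / 2 := by
      rw [hs, show 2 * r + 2 = (2 * r + 1) + 1 by ring, pow_succ (L : ℝ) (2 * r + 1)]
      field_simp
    rw [h1]
    have h2 : (L : ℝ)⁻¹ * (W * (L : ℝ) ^ (2 * r + 2)) ≤ (L : ℝ)⁻¹ * ‖φ‖ ^ 2 := by gcongr
    have h3 : 0 ≤ (L : ℝ)⁻¹ * (W * (L : ℝ) ^ (2 * r + 2)) := by positivity
    linarith
  linarith

end Pool.Agent.H12R2.And
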